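import Pool.Agent.H97.Seq

set_option autoImplicit false

namespace Pool.Agent.H97

universe u v w

/-- The free variables. -/
inductive Var : Type
  | x (s : Nd) | y (s : Nd) | w (s : Nd) | b1 (s : Nd) | b2 (s : Nd) | t1 (f : Br) | t2 (f : Br)

/-- Index type for the generators of the subalgebra. -/
inductive GI : Type
  | a (s : Nd) | c (s : Nd) | d (s : Nd) | q (s : Nd) | b1 (s : Nd) | b2 (s : Nd)
  | z1 (f : Br) (n : ℕ) | z2 (f : Br) (n : ℕ)

section

variable (k : Type u) [Field k]

/-- The big free algebra. -/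
abbrev FF := FreeAlgebra k Var

/-- The vectors `z`. -/
noncomputable def zF (f : Br) (n : ℕ) : FF k × FF k :=
  zseq (fun s => FreeAlgebra.ι k (Var.x s)) (fun s => FreeAlgebra.ι k (Var.y s))
    (fun s => FreeAlgebra.ι k (Var.w s))
    (fun s => (FreeAlgebra.ι k (Var.b1 s), FreeAlgebra.ι k (Var.b2 s))) f
    (FreeAlgebra.ι k (Var.t1 f), FreeAlgebra.ι k (Var.t2 f)) n

/-- The generators of the subalgebra. -/
noncomputable def ev : GI → FF k
  | .a s => FreeAlgebra.ι k (Var.x s) * FreeAlgebra.ι k (Var.y s)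
  | .c s => FreeAlgebra.ι k (Var.y s)
  | .d s => FreeAlgebra.ι k (Var.y s) * FreeAlgebra.ι k (Var.w s)
  | .q s => FreeAlgebra.ι k (Var.x s) + FreeAlgebra.ι k (Var.w s) +
      FreeAlgebra.ι k (Var.x s) * (FreeAlgebra.ι k (Var.y s) * FreeAlgebra.ι k (Var.w s))
  | .b1 s => FreeAlgebra.ι k (Var.b1 s)
  | .b2 s => FreeAlgebra.ι k (Var.b2 s)
  | .z1 f n => (zF k f n).1
  | .z2 f n => (zF k f n).2

theorem zF_rel1 (f : Br) (n : ℕ) : ev k (.z1 f n) = ev k (.z1 f (n + 1)) +
    ev k (.a (res f n)) * ev k (.z1 f (n + 1)) + ev k (.q (res f n)) * ev k (.z2 f (n + 1)) +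
    ev k (.b1 (res f n)) := by
  have := congrArg Prod.fst (zseq_rel (fun s => FreeAlgebra.ι k (Var.x s))
    (fun s => FreeAlgebra.ι k (Var.y s))
    (fun s => FreeAlgebra.ι k (Var.w s))
    (fun s => (FreeAlgebra.ι k (Var.b1 s), FreeAlgebra.ι k (Var.b2 s))) f
    (FreeAlgebra.ι k (Var.t1 f), FreeAlgebra.ι k (Var.t2 f)) n)
  exact this

theorem zF_rel2 (f : Br) (n : ℕ) : ev k (.z2 f n) = ev k (.c (res f n)) * ev k (.z1 f (n + 1)) +
    ev k (.z2 f (n + 1)) + ev k (.d (res f n)) * ev k (.z2 f (n + 1)) +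
    ev k (.b2 (res f n)) := by
  have := congrArg Prod.snd (zseq_rel (fun s => FreeAlgebra.ι k (Var.x s))
    (fun s => FreeAlgebra.ι k (Var.y s))
    (fun s => FreeAlgebra.ι k (Var.w s))
    (fun s => (FreeAlgebra.ι k (Var.b1 s), FreeAlgebra.ι k (Var.b2 s))) f
    (FreeAlgebra.ι k (Var.t1 f), FreeAlgebra.ι k (Var.t2 f)) n)
  exact this

/-- Action of a tree automorphism on variables. -/
def TAut.var (h : TAut) : Var → Var
  | .x s => .x (h.onN s)
  | .y s => .y (h.onN s)
  | .w s => .w (h.onN s)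
  | .b1 s => .b1 (h.onN s)
  | .b2 s => .b2 (h.onN s)
  | .t1 f => .t1 (h.onB f)
  | .t2 f => .t2 (h.onB f)

/-- Action of a tree automorphism on generator indices. -/
def TAut.gi (h : TAut) : GI → GI
  | .a s => .a (h.onN s)
  | .c s => .c (h.onN s)
  | .d s => .d (h.onN s)
  | .q s => .q (h.onN s)
  | .b1 s => .b1 (h.onN s)
  | .b2 s => .b2 (h.onN s)
  | .z1 f n => .z1 (h.onB f) n
  | .z2 f n => .z2 (h.onB f) n

/-- The inverse tree automorphism. -/
def TAut.symm (h : TAut) : TAut where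
  onB := h.onB.symm
  onN := h.onN.symm
  compat := by
    intro f n
    rw [Equiv.symm_apply_eq, h.compat, Equiv.apply_symm_apply]

theorem TAut.var_symm_var (h : TAut) (v : Var) : h.symm.var (h.var v) = v := by
  cases v <;> simp [TAut.var, TAut.symm]

theorem TAut.var_var_symm (h : TAut) (v : Var) : h.var (h.symm.var v) = v := by
  cases v <;> simp [TAut.var, TAut.symm]

theorem TAut.gi_gi_symm (h : TAut) (v : GI) : h.gi (h.symm.gi v) = v := by
  cases v <;> simp [TAut.gi, TAut.symm]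

/-- The algebra automorphism induced by a tree automorphism. -/
noncomputable def TAut.alg (h : TAut) : FF k ≃ₐ[k] FF k :=
  AlgEquiv.ofAlgHom (FreeAlgebra.lift k (fun v => FreeAlgebra.ι k (h.var v)))
    (FreeAlgebra.lift k (fun v => FreeAlgebra.ι k (h.symm.var v)))
    (by
      apply FreeAlgebra.hom_ext
      funext v
      simp [TAut.var_var_symm])
    (by
      apply FreeAlgebra.hom_ext
      funext v
      simp [TAut.var_symm_var])

@[simp] theorem TAut.alg_ι (h : TAut) (v : Var) :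
    h.alg k (FreeAlgebra.ι k v) = FreeAlgebra.ι k (h.var v) := by
  simp [TAut.alg]

theorem TAut.zseq_comp {R : Type u} [NonUnitalRing R] (h : TAut) (x y w : Nd → R)
    (b : Nd → R × R) (f : Br) (t : R × R) (n : ℕ) :
    zseq (fun s => x (h.onN s)) (fun s => y (h.onN s)) (fun s => w (h.onN s))
      (fun s => b (h.onN s)) f t n = zseq x y w b (h.onB f) t n := by
  induction n with
  | zero => rfl
  | succ n ih =>
    rw [zseq, zseq, ih, h.compat]

theorem TAut.alg_zF (h : TAut) (f : Br) (n : ℕ) :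
    Prod.map (h.alg k) (h.alg k) (zF k f n) = zF k (h.onB f) n := by
  have := map_zseq (h.alg k) (fun s => FreeAlgebra.ι k (Var.x s))
    (fun s => FreeAlgebra.ι k (Var.y s))
    (fun s => FreeAlgebra.ι k (Var.w s))
    (fun s => (FreeAlgebra.ι k (Var.b1 s), FreeAlgebra.ι k (Var.b2 s))) f
    (FreeAlgebra.ι k (Var.t1 f), FreeAlgebra.ι k (Var.t2 f)) n
  refine this.trans ?_
  rw [zF, ← TAut.zseq_comp h]
  simp [TAut.var]

theorem TAut.alg_ev (h : TAut) (g : GI) : h.alg k (ev k g) = ev k (h.gi g) := by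
  cases g with
  | a s => simp [ev, TAut.gi, TAut.var]
  | c s => simp [ev, TAut.gi, TAut.var]
  | d s => simp [ev, TAut.gi, TAut.var]
  | q s => simp [ev, TAut.gi, TAut.var]
  | b1 s => simp [ev, TAut.gi, TAut.var]
  | b2 s => simp [ev, TAut.gi, TAut.var]
  | z1 f n => exact congrArg Prod.fst (TAut.alg_zF k h f n)
  | z2 f n => exact congrArg Prod.snd (TAut.alg_zF k h f n)

/-- The big subalgebra. -/
noncomputable def AA : Subalgebra k (FF k) := Algebra.adjoin k (Set.range (ev k))

/-- Variables whose branch index, if any, is eventually zero. -/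
def Var.Ez : Var → Prop
  | .t1 f => f ∈ EZ
  | .t2 f => f ∈ EZ
  | _ => True

/-- Generator indices whose branch index, if any, is eventually zero. -/
def GI.Ez : GI → Prop
  | .z1 f _ => f ∈ EZ
  | .z2 f _ => f ∈ EZ
  | _ => True

/-- The small free algebra, as a subalgebra. -/
noncomputable def FE : Subalgebra k (FF k) :=
  Algebra.adjoin k (FreeAlgebra.ι k '' {v | v.Ez})

/-- The small subalgebra. -/
noncomputable def AE : Subalgebra k (FF k) := Algebra.adjoin k (ev k '' {g | g.Ez})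

theorem ev_mem_FE {g : GI} (hg : g.Ez) : ev k g ∈ FE k := by
  have hι : ∀ v : Var, v.Ez → FreeAlgebra.ι k v ∈ FE k := fun v hv =>
    Algebra.subset_adjoin ⟨v, hv, rfl⟩
  have hz : ∀ f ∈ EZ, ∀ n, (zF k f n).1 ∈ FE k ∧ (zF k f n).2 ∈ FE k := by
    intro f hf n
    induction n with
    | zero => exact ⟨hι (.t1 f) hf, hι (.t2 f) hf⟩
    | succ n ih =>
      have hx := hι (.x (res f n)) trivial
      have hy := hι (.y (res f n)) trivial
      have hw := hι (.w (res f n)) trivial
      have h1 := sub_mem ih.1 (hι (.b1 (res f n)) trivial)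
      have h2 := sub_mem ih.2 (hι (.b2 (res f n)) trivial)
      have h3 := sub_mem h1 (mul_mem hx h2)
      have h4 := sub_mem h2 (mul_mem hy h3)
      have h5 := sub_mem h3 (mul_mem hw h4)
      exact ⟨h5, h4⟩
  cases g with
  | a s => exact mul_mem (hι (.x s) trivial) (hι (.y s) trivial)
  | c s => exact hι (.y s) trivial
  | d s => exact mul_mem (hι (.y s) trivial) (hι (.w s) trivial)
  | q s =>
    exact add_mem (add_mem (hι (.x s) trivial) (hι (.w s) trivial))
      (mul_mem (hι (.x s) trivial) (mul_mem (hι (.y s) trivial) (hι (.w s) trivial)))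
  | b1 s => exact hι (.b1 s) trivial
  | b2 s => exact hι (.b2 s) trivial
  | z1 f n => exact (hz f hg n).1
  | z2 f n => exact (hz f hg n).2

theorem AE_le_FE : AE k ≤ FE k := by
  apply Algebra.adjoin_le
  rintro _ ⟨g, hg, rfl⟩
  exact ev_mem_FE k hg

theorem AE_le_AA : AE k ≤ AA k :=
  Algebra.adjoin_mono (Set.image_subset_range _ _)

theorem TAut.alg_mem_AA (h : TAut) {a : FF k} (ha : a ∈ AA k) : h.alg k a ∈ AA k := by
  have : AA k ≤ (AA k).comap (h.alg k).toAlgHom := by
    apply Algebra.adjoin_le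
    rintro _ ⟨g, rfl⟩
    refine Algebra.subset_adjoin ⟨h.gi g, ?_⟩
    exact (TAut.alg_ev k h g).symm
  exact this ha

theorem TAut.alg_symm_eq (h : TAut) (a : FF k) : (h.alg k).symm a = h.symm.alg k a := by
  rw [AlgEquiv.symm_apply_eq]
  have : ((h.alg k).toAlgHom.comp (h.symm.alg k).toAlgHom) = AlgHom.id k (FF k) := by
    apply FreeAlgebra.hom_ext
    funext v
    simp [TAut.var_var_symm]
  exact (congrArg (fun φ => φ a) this).symm

theorem TAut.alg_mem_AA_iff (h : TAut) {a : FF k} : h.alg k a ∈ AA k ↔ a ∈ AA k := by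
  constructor
  · intro ha
    have := TAut.alg_mem_AA k h.symm ha
    rw [← TAut.alg_symm_eq, AlgEquiv.symm_apply_apply] at this
    exact this
  · exact TAut.alg_mem_AA k h

end

end Pool.Agent.H97
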