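import Mathlib

set_option autoImplicit false

namespace Pool.Agent.H97

universe u v w

section Lead

variable (k : Type u) [Field k] {Y : Type v} {Z : Type w}

/-- The span of the words of length `< n`, inside the free algebra. -/
noncomputable def lowDeg (Z : Type w) (n : ℕ) : Submodule k (MonoidAlgebra k (FreeMonoid Z)) :=
  Submodule.span k {a | ∃ m : FreeMonoid Z, m.length < n ∧ a = MonoidAlgebra.single m 1}

variable {k}

theorem lowDeg_coeff {n : ℕ} {a : MonoidAlgebra k (FreeMonoid Z)} (ha : a ∈ lowDeg k Z n)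
    (m : FreeMonoid Z) (hm : n ≤ m.length) : a.coeff m = 0 := by
  classical
  induction ha using Submodule.span_induction with
  | mem x hx =>
    obtain ⟨m', hm', rfl⟩ := hx
    have : m' ≠ m := by
      rintro rfl
      omega
    simp [MonoidAlgebra.coeff_single, Finsupp.single_apply, this]
  | zero => simp
  | add x y _ _ hx hy => simp [hx, hy]
  | smul c x _ hx => simp [hx]

theorem lowDeg_mono {n m : ℕ} (h : n ≤ m) : lowDeg k Z n ≤ lowDeg k Z m := by
  apply Submodule.span_mono
  rintro a ⟨w, hw, rfl⟩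
  exact ⟨w, by omega, rfl⟩

theorem single_mem_lowDeg {n : ℕ} (w : FreeMonoid Z) (h : w.length < n) :
    MonoidAlgebra.single w (1 : k) ∈ lowDeg k Z n :=
  Submodule.subset_span ⟨w, h, rfl⟩

theorem mul_mem_lowDeg {n m p : ℕ} {a b : MonoidAlgebra k (FreeMonoid Z)}
    (ha : a ∈ lowDeg k Z (n + 1)) (hb : b ∈ lowDeg k Z m) (h : n + m ≤ p) :
    a * b ∈ lowDeg k Z p := by
  have h1 : a * b ∈ lowDeg k Z (n + 1) * lowDeg k Z m := Submodule.mul_mem_mul ha hb
  unfold lowDeg at h1
  rw [Submodule.span_mul_span] at h1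
  refine Submodule.span_le.2 ?_ h1
  rintro x ⟨y, ⟨w1, hw1, rfl⟩, z, ⟨w2, hw2, rfl⟩, rfl⟩
  simp only [MonoidAlgebra.single_mul_single, mul_one]
  apply single_mem_lowDeg
  rw [FreeMonoid.length_mul]
  omega

theorem mul_mem_lowDeg' {n m p : ℕ} {a b : MonoidAlgebra k (FreeMonoid Z)}
    (ha : a ∈ lowDeg k Z n) (hb : b ∈ lowDeg k Z (m + 1)) (h : n + m ≤ p) :
    a * b ∈ lowDeg k Z p := by
  have h1 : a * b ∈ lowDeg k Z n * lowDeg k Z (m + 1) := Submodule.mul_mem_mul ha hb
  unfold lowDeg at h1
  rw [Submodule.span_mul_span] at h1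
  refine Submodule.span_le.2 ?_ h1
  rintro x ⟨y, ⟨w1, hw1, rfl⟩, z, ⟨w2, hw2, rfl⟩, rfl⟩
  simp only [MonoidAlgebra.single_mul_single, mul_one]
  apply single_mem_lowDeg
  rw [FreeMonoid.length_mul]
  omega

/-- Leading words: if `g y = u y + (shorter words)` then the same holds for products. -/
theorem lift_sub_mem_lowDeg (uu : Y → FreeMonoid Z) (g : Y → MonoidAlgebra k (FreeMonoid Z))
    (hg : ∀ y, g y - MonoidAlgebra.single (uu y) 1 ∈ lowDeg k Z (uu y).length)
    (w : FreeMonoid Y) :
    FreeMonoid.lift g w - MonoidAlgebra.single (FreeMonoid.lift uu w) 1 ∈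
      lowDeg k Z (FreeMonoid.lift uu w).length := by
  induction w using FreeMonoid.inductionOn' with
  | one => simp [MonoidAlgebra.one_def]
  | of_mul y w ih =>
    rw [map_mul, map_mul, FreeMonoid.lift_eval_of, FreeMonoid.lift_eval_of]
    set G := FreeMonoid.lift g w
    set U := FreeMonoid.lift uu w
    have hGU : G ∈ lowDeg k Z (U.length + 1) := by
      have h1 := lowDeg_mono (Nat.le_succ _) ih
      have h2 : MonoidAlgebra.single U (1 : k) ∈ lowDeg k Z (U.length + 1) :=
        single_mem_lowDeg U (Nat.lt_succ_self _)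
      have := Submodule.add_mem _ h1 h2
      simpa using this
    have e : g y * G - MonoidAlgebra.single (uu y * U) 1 =
        (g y - MonoidAlgebra.single (uu y) 1) * G +
          MonoidAlgebra.single (uu y) 1 * (G - MonoidAlgebra.single U 1) := by
      rw [sub_mul, mul_sub, MonoidAlgebra.single_mul_single, mul_one]
      abel
    rw [e, FreeMonoid.length_mul]
    refine Submodule.add_mem _ ?_ ?_
    · exact mul_mem_lowDeg' (hg y) hGU le_rfl
    · exact mul_mem_lowDeg (single_mem_lowDeg (uu y) (Nat.lt_succ_self _)) ih le_rfl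

/-- If the leading words form a code then the elements are free generators. -/
theorem lift_injective_of_code (uu : Y → FreeMonoid Z)
    (huu : Function.Injective (FreeMonoid.lift uu))
    (g : Y → MonoidAlgebra k (FreeMonoid Z))
    (hg : ∀ y, g y - MonoidAlgebra.single (uu y) 1 ∈ lowDeg k Z (uu y).length) :
    Function.Injective (MonoidAlgebra.lift k (MonoidAlgebra k (FreeMonoid Z)) (FreeMonoid Y)
      (FreeMonoid.lift g)) := by
  classical
  rw [injective_iff_map_eq_zero]
  intro a ha
  by_contra hne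
  have hs : a.coeff.support.Nonempty := by
    rw [Finsupp.support_nonempty_iff]
    intro h
    exact hne (MonoidAlgebra.coeff_eq_zero.1 h)
  obtain ⟨w0, hw0, hmax⟩ := Finset.exists_max_image a.coeff.support
    (fun w => (FreeMonoid.lift uu w).length) hs
  have h0 : (MonoidAlgebra.lift k (MonoidAlgebra k (FreeMonoid Z)) (FreeMonoid Y)
      (FreeMonoid.lift g) a).coeff (FreeMonoid.lift uu w0) = 0 := by
    rw [ha]; simp
  rw [MonoidAlgebra.lift_apply] at h0
  rw [Finsupp.sum, MonoidAlgebra.coeff_sum, Finsupp.finsetSum_apply] at h0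
  have h1 : ∀ w ∈ a.coeff.support, (a.coeff w • (FreeMonoid.lift g) w).coeff
      (FreeMonoid.lift uu w0) = if w = w0 then a.coeff w else 0 := by
    intro w hw
    have hl := lift_sub_mem_lowDeg uu g hg w
    have hc := lowDeg_coeff hl (FreeMonoid.lift uu w0) (hmax w hw)
    have e : (FreeMonoid.lift g w).coeff (FreeMonoid.lift uu w0) =
        if w = w0 then 1 else 0 := by
      have : (FreeMonoid.lift g w) =
        (FreeMonoid.lift g w - MonoidAlgebra.single (FreeMonoid.lift uu w) 1)
          + MonoidAlgebra.single (FreeMonoid.lift uu w) 1 := by abel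
      rw [this, MonoidAlgebra.coeff_add, Finsupp.add_apply, hc, zero_add,
        MonoidAlgebra.coeff_single, Finsupp.single_apply]
      simp only [huu.eq_iff]
    rw [MonoidAlgebra.coeff_smul, Finsupp.smul_apply, e]
    simp
  rw [Finset.sum_congr rfl h1, Finset.sum_ite_eq' ] at h0
  simp only [hw0, if_true] at h0
  exact (Finsupp.mem_support_iff.1 hw0) h0

end Lead

end Pool.Agent.H97
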