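import Pool.Agent.H97.Code

set_option autoImplicit false

namespace Pool.Agent.H97

universe u v w

/-- Letters for the target free algebra. -/
inductive Lt (N : Type v) : Type v
  | x (s : N) | y (s : N) | w (s : N) | z1 (s : N) | z2 (s : N)

/-- Letters for the source free algebra. -/
inductive Gn (N : Type v) : Type v
  | a (s : N) | c (s : N) | d (s : N) | q (s : N) | z1 (s : N) | z2 (s : N)

variable {N : Type v}

/-- The leading words. -/
def uL : Gn N → List (Lt N)
  | .a s => [.x s, .y s]
  | .c s => [.y s]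
  | .d s => [.y s, .w s]
  | .q s => [.x s, .y s, .w s]
  | .z1 s => [.z1 s]
  | .z2 s => [.z2 s]

theorem flatMap_uL_ne (l : List (Gn N)) (s : N) (m : List (Lt N)) :
    l.flatMap uL ≠ Lt.w s :: m := by
  cases l with
  | nil => simp
  | cons g l => cases g <;> simp [uL]

theorem flatMap_uL_injective : Function.Injective (fun l : List (Gn N) => l.flatMap uL) := by
  intro l1
  induction l1 with
  | nil =>
    intro l2 h
    cases l2 with
    | nil => rfl
    | cons g l => cases g <;> simp [uL] at h
  | cons g l1 ih =>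
    intro l2 h
    cases l2 with
    | nil => cases g <;> simp [uL] at h
    | cons g' l2 =>
      have hne := flatMap_uL_ne (N := N)
      cases g <;> cases g' <;> simp only [List.flatMap_cons, uL, List.cons_append, List.nil_append,
        List.cons.injEq, Lt.x.injEq, Lt.y.injEq, Lt.w.injEq, Lt.z1.injEq, Lt.z2.injEq, reduceCtorEq,
        false_and, and_false] at h
      · obtain ⟨rfl, -, h⟩ := h
        rw [ih h]
      · exact absurd h.2.2 (hne _ _ _)
      · obtain ⟨rfl, h⟩ := h
        rw [ih h]
      · exact absurd h.2 (hne _ _ _)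
      · exact absurd h.2.symm (hne _ _ _)
      · obtain ⟨rfl, -, h⟩ := h
        rw [ih h]
      · exact absurd h.2.2.symm (hne _ _ _)
      · obtain ⟨rfl, -, -, h⟩ := h
        rw [ih h]
      · obtain ⟨rfl, h⟩ := h
        rw [ih h]
      · obtain ⟨rfl, h⟩ := h
        rw [ih h]

/-- The leading words in the free monoid. -/
def uM (g : Gn N) : FreeMonoid (Lt N) := FreeMonoid.ofList (uL g)

theorem toList_lift_uM (w : FreeMonoid (Gn N)) :
    (FreeMonoid.lift uM w).toList = w.toList.flatMap uL := by
  induction w using FreeMonoid.inductionOn' with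
  | one => simp
  | of_mul g w ih =>
    rw [map_mul, FreeMonoid.toList_mul, ih, FreeMonoid.lift_eval_of]
    simp [uM]

theorem lift_uM_injective : Function.Injective (FreeMonoid.lift (uM (N := N))) := by
  intro w1 w2 h
  have := congrArg FreeMonoid.toList h
  rw [toList_lift_uM, toList_lift_uM] at this
  exact FreeMonoid.toList.injective (flatMap_uL_injective this)

section

variable (k : Type u) [Field k]

/-- The images of the generators. -/
noncomputable def gF : Gn N → FreeAlgebra k (Lt N)
  | .a s => FreeAlgebra.ι k (.x s) * FreeAlgebra.ι k (.y s)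
  | .c s => FreeAlgebra.ι k (.y s)
  | .d s => FreeAlgebra.ι k (.y s) * FreeAlgebra.ι k (.w s)
  | .q s => FreeAlgebra.ι k (.x s) + FreeAlgebra.ι k (.w s) +
      FreeAlgebra.ι k (.x s) * (FreeAlgebra.ι k (.y s) * FreeAlgebra.ι k (.w s))
  | .z1 s => FreeAlgebra.ι k (.z1 s)
  | .z2 s => FreeAlgebra.ι k (.z2 s)

theorem equiv_ι (v : Lt N) : FreeAlgebra.equivMonoidAlgebraFreeMonoid (FreeAlgebra.ι k v) =
    MonoidAlgebra.single (FreeMonoid.of v) (1 : k) := by
  simp [FreeAlgebra.equivMonoidAlgebraFreeMonoid, MonoidAlgebra.of_apply]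

theorem gF_lead (g : Gn N) : FreeAlgebra.equivMonoidAlgebraFreeMonoid (gF k g) -
    MonoidAlgebra.single (uM g) 1 ∈ lowDeg k (Lt N) (uM g).length := by
  cases g with
  | a s =>
    have : FreeAlgebra.equivMonoidAlgebraFreeMonoid (gF k (Gn.a s)) -
        MonoidAlgebra.single (uM (Gn.a s)) 1 = 0 := by
      simp only [gF, map_mul, equiv_ι, MonoidAlgebra.single_mul_single, mul_one]
      rw [sub_eq_zero]; rfl
    rw [this]; exact Submodule.zero_mem _
  | c s =>
    have : FreeAlgebra.equivMonoidAlgebraFreeMonoid (gF k (Gn.c s)) -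
        MonoidAlgebra.single (uM (Gn.c s)) 1 = 0 := by
      simp only [gF, equiv_ι]
      rw [sub_eq_zero]; rfl
    rw [this]; exact Submodule.zero_mem _
  | d s =>
    have : FreeAlgebra.equivMonoidAlgebraFreeMonoid (gF k (Gn.d s)) -
        MonoidAlgebra.single (uM (Gn.d s)) 1 = 0 := by
      simp only [gF, map_mul, equiv_ι, MonoidAlgebra.single_mul_single, mul_one]
      rw [sub_eq_zero]; rfl
    rw [this]; exact Submodule.zero_mem _
  | q s =>
    have : FreeAlgebra.equivMonoidAlgebraFreeMonoid (gF k (Gn.q s)) -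
        MonoidAlgebra.single (uM (Gn.q s)) 1 =
        MonoidAlgebra.single (FreeMonoid.of (Lt.x s)) 1 +
          MonoidAlgebra.single (FreeMonoid.of (Lt.w s)) 1 := by
      simp only [gF, map_mul, map_add, equiv_ι, MonoidAlgebra.single_mul_single, mul_one]
      rw [sub_eq_iff_eq_add]; rfl
    rw [this]
    refine Submodule.add_mem _ ?_ ?_ <;>
    · apply single_mem_lowDeg
      simp [uM, uL, FreeMonoid.length]
  | z1 s =>
    have : FreeAlgebra.equivMonoidAlgebraFreeMonoid (gF k (Gn.z1 s)) -
        MonoidAlgebra.single (uM (Gn.z1 s)) 1 = 0 := by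
      simp only [gF, equiv_ι]
      rw [sub_eq_zero]; rfl
    rw [this]; exact Submodule.zero_mem _
  | z2 s =>
    have : FreeAlgebra.equivMonoidAlgebraFreeMonoid (gF k (Gn.z2 s)) -
        MonoidAlgebra.single (uM (Gn.z2 s)) 1 = 0 := by
      simp only [gF, equiv_ι]
      rw [sub_eq_zero]; rfl
    rw [this]; exact Submodule.zero_mem _

/-- The elements `gF` are free generators. -/
theorem lift_gF_injective : Function.Injective (FreeAlgebra.lift k (gF k (N := N))) := by
  have h := lift_injective_of_code (k := k) (uM (N := N)) lift_uM_injective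
    (fun g => FreeAlgebra.equivMonoidAlgebraFreeMonoid (gF k g)) (gF_lead k)
  have e : ∀ a, FreeAlgebra.equivMonoidAlgebraFreeMonoid (FreeAlgebra.lift k (gF k (N := N)) a) =
      MonoidAlgebra.lift k (MonoidAlgebra k (FreeMonoid (Lt N))) (FreeMonoid (Gn N))
      (FreeMonoid.lift (fun g => FreeAlgebra.equivMonoidAlgebraFreeMonoid (gF k g)))
        (FreeAlgebra.equivMonoidAlgebraFreeMonoid a) := by
    intro a
    have : ((FreeAlgebra.equivMonoidAlgebraFreeMonoid (R := k) (X := Lt N)).toAlgHom.comp
        (FreeAlgebra.lift k (gF k (N := N)))) =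
      ((MonoidAlgebra.lift k (MonoidAlgebra k (FreeMonoid (Lt N))) (FreeMonoid (Gn N))
      (FreeMonoid.lift (fun g => FreeAlgebra.equivMonoidAlgebraFreeMonoid (gF k g)))).comp
        (FreeAlgebra.equivMonoidAlgebraFreeMonoid (R := k) (X := Gn N)).toAlgHom) := by
      apply FreeAlgebra.hom_ext
      funext g
      simp [FreeAlgebra.equivMonoidAlgebraFreeMonoid, MonoidAlgebra.of_apply]
    exact congrArg (fun φ => φ a) this
  intro a b hab
  have h2 := congrArg (FreeAlgebra.equivMonoidAlgebraFreeMonoid (R := k) (X := Lt N)) hab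
  rw [e, e] at h2
  exact (FreeAlgebra.equivMonoidAlgebraFreeMonoid (R := k)).injective (h h2)

end

end Pool.Agent.H97
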