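import Pool.Agent.H97.Alg

set_option autoImplicit false

namespace Pool.Agent.H97

universe u v w

section

variable (k : Type u) [Field k]

/-! ### Finite supports -/

theorem exists_fix (a : FF k) (ha : a ∈ FE k) :
    ∃ (L : Finset Br) (N : ℕ), (∀ f ∈ L, f ∈ EZ) ∧
      ∀ h : TAut, (∀ f ∈ L, h.onB f = f) → (∀ s : Nd, s.1 ≤ N → h.onN s = s) →
        h.alg k a = a := by
  classical
  induction ha using Algebra.adjoin_induction with
  | mem x hx =>
    obtain ⟨v, hv, rfl⟩ := hx
    cases v with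
    | x s => exact ⟨∅, s.1, by simp, fun h _ h2 => by simp [TAut.var, h2 s le_rfl]⟩
    | y s => exact ⟨∅, s.1, by simp, fun h _ h2 => by simp [TAut.var, h2 s le_rfl]⟩
    | w s => exact ⟨∅, s.1, by simp, fun h _ h2 => by simp [TAut.var, h2 s le_rfl]⟩
    | b1 s => exact ⟨∅, s.1, by simp, fun h _ h2 => by simp [TAut.var, h2 s le_rfl]⟩
    | b2 s => exact ⟨∅, s.1, by simp, fun h _ h2 => by simp [TAut.var, h2 s le_rfl]⟩
    | t1 f =>
      refine ⟨{f}, 0, ?_, fun h h1 _ => ?_⟩
      · intro g hg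
        rw [Finset.mem_singleton] at hg
        subst hg
        exact hv
      · simp [TAut.var, h1 f (Finset.mem_singleton_self f)]
    | t2 f =>
      refine ⟨{f}, 0, ?_, fun h h1 _ => ?_⟩
      · intro g hg
        rw [Finset.mem_singleton] at hg
        subst hg
        exact hv
      · simp [TAut.var, h1 f (Finset.mem_singleton_self f)]
  | algebraMap r => exact ⟨∅, 0, by simp, fun h _ _ => by simp⟩
  | add x y _ _ hx hy =>
    obtain ⟨L1, N1, e1, h1⟩ := hx
    obtain ⟨L2, N2, e2, h2⟩ := hy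
    refine ⟨L1 ∪ L2, max N1 N2, ?_, fun h hL hN => ?_⟩
    · intro f hf
      rcases Finset.mem_union.1 hf with hf | hf
      · exact e1 f hf
      · exact e2 f hf
    · rw [map_add, h1 h (fun f hf => hL f (Finset.mem_union_left _ hf))
        (fun s hs => hN s (le_trans hs (le_max_left _ _))),
        h2 h (fun f hf => hL f (Finset.mem_union_right _ hf))
        (fun s hs => hN s (le_trans hs (le_max_right _ _)))]
  | mul x y _ _ hx hy =>
    obtain ⟨L1, N1, e1, h1⟩ := hx
    obtain ⟨L2, N2, e2, h2⟩ := hy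
    refine ⟨L1 ∪ L2, max N1 N2, ?_, fun h hL hN => ?_⟩
    · intro f hf
      rcases Finset.mem_union.1 hf with hf | hf
      · exact e1 f hf
      · exact e2 f hf
    · rw [map_mul, h1 h (fun f hf => hL f (Finset.mem_union_left _ hf))
        (fun s hs => hN s (le_trans hs (le_max_left _ _))),
        h2 h (fun f hf => hL f (Finset.mem_union_right _ hf))
        (fun s hs => hN s (le_trans hs (le_max_right _ _)))]

theorem exists_fix_finset {ι : Type v} (T : Finset ι) (x : ι → FF k) (hx : ∀ i ∈ T, x i ∈ FE k) :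
    ∃ (L : Finset Br) (N : ℕ), (∀ f ∈ L, f ∈ EZ) ∧
      ∀ h : TAut, (∀ f ∈ L, h.onB f = f) → (∀ s : Nd, s.1 ≤ N → h.onN s = s) →
        ∀ i ∈ T, h.alg k (x i) = x i := by
  classical
  induction T using Finset.induction_on with
  | empty => exact ⟨∅, 0, by simp, fun h _ _ i hi => by simp at hi⟩
  | insert j T _ ih =>
    obtain ⟨L1, N1, e1, h1⟩ := ih (fun i hi => hx i (Finset.mem_insert_of_mem hi))
    obtain ⟨L2, N2, e2, h2⟩ := exists_fix k (x j) (hx j (Finset.mem_insert_self _ _))
    refine ⟨L1 ∪ L2, max N1 N2, ?_, fun h hL hN => ?_⟩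
    · intro f hf
      rcases Finset.mem_union.1 hf with hf | hf
      · exact e1 f hf
      · exact e2 f hf
    · intro i hi
      rcases Finset.mem_insert.1 hi with rfl | hi
      · exact h2 h (fun f hf => hL f (Finset.mem_union_right _ hf))
          (fun s hs => hN s (le_trans hs (le_max_right _ _)))
      · exact h1 h (fun f hf => hL f (Finset.mem_union_left _ hf))
          (fun s hs => hN s (le_trans hs (le_max_left _ _))) i hi

theorem exists_moveFE (a : FF k) :
    ∃ L : Finset Br, ∀ h : TAut, (∀ f ∈ L, h.onB f ∈ EZ) → h.alg k a ∈ FE k := by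
  classical
  have ha : a ∈ Algebra.adjoin k (Set.range (FreeAlgebra.ι k (X := Var))) := by
    rw [FreeAlgebra.adjoin_range_ι]; exact Algebra.mem_top
  induction ha using Algebra.adjoin_induction with
  | mem x hx =>
    obtain ⟨v, rfl⟩ := hx
    have key : ∀ h : TAut, (h.var v).Ez → h.alg k (FreeAlgebra.ι k v) ∈ FE k := by
      intro h hv
      rw [TAut.alg_ι]
      exact Algebra.subset_adjoin ⟨_, hv, rfl⟩
    cases v with
    | x s => exact ⟨∅, fun h _ => key h trivial⟩
    | y s => exact ⟨∅, fun h _ => key h trivial⟩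
    | w s => exact ⟨∅, fun h _ => key h trivial⟩
    | b1 s => exact ⟨∅, fun h _ => key h trivial⟩
    | b2 s => exact ⟨∅, fun h _ => key h trivial⟩
    | t1 f => exact ⟨{f}, fun h hL => key h (hL f (Finset.mem_singleton_self f))⟩
    | t2 f => exact ⟨{f}, fun h hL => key h (hL f (Finset.mem_singleton_self f))⟩
  | algebraMap r => exact ⟨∅, fun h _ => by
      rw [AlgEquiv.commutes]; exact (FE k).algebraMap_mem r⟩
  | add x y _ _ hx hy =>
    obtain ⟨L1, h1⟩ := hx
    obtain ⟨L2, h2⟩ := hy
    refine ⟨L1 ∪ L2, fun h hL => ?_⟩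
    rw [map_add]
    exact add_mem (h1 h (fun f hf => hL f (Finset.mem_union_left _ hf)))
      (h2 h (fun f hf => hL f (Finset.mem_union_right _ hf)))
  | mul x y _ _ hx hy =>
    obtain ⟨L1, h1⟩ := hx
    obtain ⟨L2, h2⟩ := hy
    refine ⟨L1 ∪ L2, fun h hL => ?_⟩
    rw [map_mul]
    exact mul_mem (h1 h (fun f hf => hL f (Finset.mem_union_left _ hf)))
      (h2 h (fun f hf => hL f (Finset.mem_union_right _ hf)))

/-- The prescribed values of the generators under the special character. -/
def valG : GI → k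
  | .a _ => -1
  | .d _ => -1
  | _ => 0

/-- The graph of the special character. -/
noncomputable def Gam : Subalgebra k (FF k × k) :=
  Algebra.adjoin k (Set.range (fun g : GI => (ev k g, valG k g)))

/-- The graph of the special character on the small subalgebra. -/
noncomputable def GamE : Subalgebra k (FF k × k) :=
  Algebra.adjoin k ((fun g : GI => (ev k g, valG k g)) '' {g | g.Ez})

theorem valG_gi (h : TAut) (g : GI) : valG k (h.gi g) = valG k g := by
  cases g <;> rfl

theorem exists_moveGam (p : FF k × k) (hp : p ∈ Gam k) :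
    ∃ L : Finset Br, ∀ h : TAut, (∀ f ∈ L, h.onB f ∈ EZ) → (h.alg k p.1, p.2) ∈ GamE k := by
  classical
  induction hp using Algebra.adjoin_induction with
  | mem x hx =>
    obtain ⟨g, rfl⟩ := hx
    have key : ∀ h : TAut, (h.gi g).Ez →
        (h.alg k (ev k g), valG k g) ∈ GamE k := by
      intro h hv
      rw [TAut.alg_ev, ← valG_gi k h]
      exact Algebra.subset_adjoin ⟨_, hv, rfl⟩
    cases g with
    | a s => exact ⟨∅, fun h _ => key h trivial⟩
    | c s => exact ⟨∅, fun h _ => key h trivial⟩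
    | d s => exact ⟨∅, fun h _ => key h trivial⟩
    | q s => exact ⟨∅, fun h _ => key h trivial⟩
    | b1 s => exact ⟨∅, fun h _ => key h trivial⟩
    | b2 s => exact ⟨∅, fun h _ => key h trivial⟩
    | z1 f n => exact ⟨{f}, fun h hL => key h (hL f (Finset.mem_singleton_self f))⟩
    | z2 f n => exact ⟨{f}, fun h hL => key h (hL f (Finset.mem_singleton_self f))⟩
  | algebraMap r => exact ⟨∅, fun h _ => by
      have : ((h.alg k) ((algebraMap k (FF k × k)) r).1, ((algebraMap k (FF k × k)) r).2) =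
        algebraMap k (FF k × k) r := by
          simp [Prod.ext_iff]
      rw [this]
      exact (GamE k).algebraMap_mem r⟩
  | add x y _ _ hx hy =>
    obtain ⟨L1, h1⟩ := hx
    obtain ⟨L2, h2⟩ := hy
    refine ⟨L1 ∪ L2, fun h hL => ?_⟩
    have := add_mem (h1 h (fun f hf => hL f (Finset.mem_union_left _ hf)))
      (h2 h (fun f hf => hL f (Finset.mem_union_right _ hf)))
    simpa using this
  | mul x y _ _ hx hy =>
    obtain ⟨L1, h1⟩ := hx
    obtain ⟨L2, h2⟩ := hy
    refine ⟨L1 ∪ L2, fun h hL => ?_⟩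
    have := mul_mem (h1 h (fun f hf => hL f (Finset.mem_union_left _ hf)))
      (h2 h (fun f hf => hL f (Finset.mem_union_right _ hf)))
    simpa using this

theorem Gam_map_fst : (Gam k).map (AlgHom.fst k (FF k) k) = AA k := by
  unfold Gam AA
  rw [AlgHom.map_adjoin]
  congr 1
  ext x
  simp

theorem GamE_map_fst : (GamE k).map (AlgHom.fst k (FF k) k) = AE k := by
  unfold GamE AE
  rw [AlgHom.map_adjoin]
  congr 1
  ext x
  simp

theorem exists_moveAA (a : FF k) (ha : a ∈ AA k) :
    ∃ L : Finset Br, ∀ h : TAut, (∀ f ∈ L, h.onB f ∈ EZ) → h.alg k a ∈ AE k := by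
  rw [← Gam_map_fst] at ha
  obtain ⟨p, hp, rfl⟩ := ha
  obtain ⟨L, hL⟩ := exists_moveGam k p hp
  refine ⟨L, fun h hh => ?_⟩
  rw [← GamE_map_fst]
  exact ⟨_, hL h hh, rfl⟩

theorem AA_inf_FE {a : FF k} (h1 : a ∈ AA k) (h2 : a ∈ FE k) : a ∈ AE k := by
  obtain ⟨L1, N, e1, hfix⟩ := exists_fix k a h2
  obtain ⟨L0, hmove⟩ := exists_moveAA k a h1
  obtain ⟨h, ha, hb, hc⟩ := exists_move L0 L1 e1 N
  have := hmove h hc
  rwa [hfix h ha hb] at this

end

end Pool.Agent.H97
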