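import Pool.Agent.H97.Main1

set_option autoImplicit false

namespace Pool.Agent.H97

universe u v w

section

variable (k : Type u) [Field k]

/-- Index of the free generators of the small subalgebra. -/
def gnGI : Gn Nd → GI
  | .a s => .a s
  | .c s => .c s
  | .d s => .d s
  | .q s => .q s
  | .z1 s => .z1 (ext s) s.1
  | .z2 s => .z2 (ext s) s.1

theorem gnGI_Ez (g : Gn Nd) : (gnGI g).Ez := by
  cases g <;> first | trivial | exact ext_mem_EZ _

/-- The parametrization of the small subalgebra. -/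
noncomputable def Phi : FreeAlgebra k (Gn Nd) →ₐ[k] FF k :=
  FreeAlgebra.lift k (fun g => ev k (gnGI g))

theorem Phi_range_eq_adjoin :
    (Phi k).range = Algebra.adjoin k (Set.range (fun g => ev k (gnGI g))) := by
  rw [Algebra.adjoin_range_eq_range_freeAlgebra_lift]
  rfl

/-- A set closed under the operations that contains the free generators contains all
the generators of the small subalgebra. -/
theorem mem_of_rel {B : Type v} [NonUnitalRing B] (e : GI → B)
    (r1 : ∀ f n, e (.z1 f n) = e (.z1 f (n + 1)) +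
      e (.a (res f n)) * e (.z1 f (n + 1)) + e (.q (res f n)) * e (.z2 f (n + 1)) +
      e (.b1 (res f n)))
    (r2 : ∀ f n, e (.z2 f n) = e (.c (res f n)) * e (.z1 f (n + 1)) +
      e (.z2 f (n + 1)) + e (.d (res f n)) * e (.z2 f (n + 1)) +
      e (.b2 (res f n)))
    (S : NonUnitalSubring B) (hι : ∀ g : Gn Nd, e (gnGI g) ∈ S) (g : GI) (hg : g.Ez) :
    e g ∈ S := by
  have hz1 : ∀ f n, ext (res f n) = f → e (.z1 f n) ∈ S := by
    intro f n hf
    have := hι (.z1 (res f n))
    simp only [gnGI, hf, res_fst] at this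
    exact this
  have hz2 : ∀ f n, ext (res f n) = f → e (.z2 f n) ∈ S := by
    intro f n hf
    have := hι (.z2 (res f n))
    simp only [gnGI, hf, res_fst] at this
    exact this
  have hb1 : ∀ s, e (.b1 s) ∈ S := by
    intro s
    have hr := r1 (ext s) s.1
    rw [res_ext] at hr
    have e' : e (.b1 s) = e (.z1 (ext s) s.1) - (e (.z1 (ext s) (s.1 + 1)) +
      e (.a s) * e (.z1 (ext s) (s.1 + 1)) + e (.q s) * e (.z2 (ext s) (s.1 + 1))) := by
      rw [hr]; abel
    have h0 : ext (res (ext s) s.1) = ext s := by rw [res_ext]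
    have h1 := hz1 (ext s) s.1 h0
    have h2 := hz1 (ext s) (s.1 + 1) (ext_res_of_le (Nat.le_succ _) h0)
    have h3 := hz2 (ext s) (s.1 + 1) (ext_res_of_le (Nat.le_succ _) h0)
    rw [e']
    exact sub_mem h1 (add_mem (add_mem h2 (mul_mem (hι (.a s)) h2)) (mul_mem (hι (.q s)) h3))
  have hb2 : ∀ s, e (.b2 s) ∈ S := by
    intro s
    have hr := r2 (ext s) s.1
    rw [res_ext] at hr
    have e' : e (.b2 s) = e (.z2 (ext s) s.1) - (e (.c s) *
      e (.z1 (ext s) (s.1 + 1)) + e (.z2 (ext s) (s.1 + 1)) +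
      e (.d s) * e (.z2 (ext s) (s.1 + 1))) := by
      rw [hr]; abel
    have h0 : ext (res (ext s) s.1) = ext s := by rw [res_ext]
    have h1 := hz2 (ext s) s.1 h0
    have h2 := hz1 (ext s) (s.1 + 1) (ext_res_of_le (Nat.le_succ _) h0)
    have h3 := hz2 (ext s) (s.1 + 1) (ext_res_of_le (Nat.le_succ _) h0)
    rw [e']
    exact sub_mem h1 (add_mem (add_mem (mul_mem (hι (.c s)) h2) h3) (mul_mem (hι (.d s)) h3))
  have hz : ∀ f n m, n ≤ m → ext (res f m) = f →
      e (.z1 f n) ∈ S ∧ e (.z2 f n) ∈ S := by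
    intro f n m hnm hf
    induction hnm using Nat.decreasingInduction with
    | self => exact ⟨hz1 f m hf, hz2 f m hf⟩
    | of_succ n hn ih =>
      constructor
      · rw [r1]
        exact add_mem (add_mem (add_mem ih.1 (mul_mem (hι (.a _)) ih.1))
          (mul_mem (hι (.q _)) ih.2)) (hb1 _)
      · rw [r2]
        exact add_mem (add_mem (add_mem (mul_mem (hι (.c _)) ih.1) ih.2)
          (mul_mem (hι (.d _)) ih.2)) (hb2 _)
  have hz' : ∀ f ∈ EZ, ∀ n, e (.z1 f n) ∈ S ∧ e (.z2 f n) ∈ S := by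
    rintro f ⟨s, rfl⟩ n
    have h0 : ext (res (ext s) s.1) = ext s := by rw [res_ext]
    exact hz (ext s) n (max n s.1) (le_max_left _ _) (ext_res_of_le (le_max_right _ _) h0)
  cases g with
  | a s => exact hι (.a s)
  | c s => exact hι (.c s)
  | d s => exact hι (.d s)
  | q s => exact hι (.q s)
  | b1 s => exact hb1 s
  | b2 s => exact hb2 s
  | z1 f n => exact (hz' f hg n).1
  | z2 f n => exact (hz' f hg n).2

theorem ev_mem_range (g : GI) (hg : g.Ez) : ev k g ∈ (Phi k).range := by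
  refine mem_of_rel (ev k) (zF_rel1 k) (zF_rel2 k)
    ((Phi k).range.toSubring.toNonUnitalSubring) ?_ g hg
  intro g
  exact ⟨FreeAlgebra.ι k g, by simp [Phi]⟩

theorem Phi_range : (Phi k).range = AE k := by
  apply le_antisymm
  · rw [Phi_range_eq_adjoin]
    apply Algebra.adjoin_mono
    rintro _ ⟨g, rfl⟩
    exact ⟨gnGI g, gnGI_Ez g, rfl⟩
  · apply Algebra.adjoin_le
    rintro _ ⟨g, hg, rfl⟩
    exact ev_mem_range k g hg

/-- There is a homomorphism straightening the small subalgebra. -/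
theorem exists_Theta : ∃ Θ : FF k →ₐ[k] FreeAlgebra k (Lt Nd),
    Θ.comp (Phi k) = FreeAlgebra.lift k (gF k) := by
  let x : Nd → FreeAlgebra k (Lt Nd) := fun s => FreeAlgebra.ι k (Lt.x s)
  let y : Nd → FreeAlgebra k (Lt Nd) := fun s => FreeAlgebra.ι k (Lt.y s)
  let w : Nd → FreeAlgebra k (Lt Nd) := fun s => FreeAlgebra.ι k (Lt.w s)
  let ζ : Nd → FreeAlgebra k (Lt Nd) × FreeAlgebra k (Lt Nd) := fun s =>
    (FreeAlgebra.ι k (Lt.z1 s), FreeAlgebra.ι k (Lt.z2 s))
  let b : Nd → FreeAlgebra k (Lt Nd) × FreeAlgebra k (Lt Nd) := fun s =>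
    ζ s - app2 (x s * y s) (y s) (y s * w s) (x s + w s + x s * (y s * w s)) (ζ (ch0 s))
  choose τ hτ using exists_tau x y w b ζ (fun s => rfl)
  let θ : Var → FreeAlgebra k (Lt Nd)
    | .x s => x s
    | .y s => y s
    | .w s => w s
    | .b1 s => (b s).1
    | .b2 s => (b s).2
    | .t1 f => (τ f).1
    | .t2 f => (τ f).2
  refine ⟨FreeAlgebra.lift k θ, ?_⟩
  have hz : ∀ s, Prod.map (FreeAlgebra.lift k θ) (FreeAlgebra.lift k θ) (zF k (ext s) s.1) =
      ζ s := by
    intro s
    rw [zF, map_zseq]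
    rw [← hτ (ext s) s rfl]
    simp [θ]
  apply FreeAlgebra.hom_ext
  funext g
  cases g with
  | a s => simp [Phi, gnGI, ev, gF, θ, x, y]
  | c s => simp [Phi, gnGI, ev, gF, θ, y]
  | d s => simp [Phi, gnGI, ev, gF, θ, w, y]
  | q s => simp [Phi, gnGI, ev, gF, θ, x, w, y]
  | z1 s =>
    have := congrArg Prod.fst (hz s)
    simpa [Phi, gnGI, ev, gF] using this
  | z2 s =>
    have := congrArg Prod.snd (hz s)
    simpa [Phi, gnGI, ev, gF] using this

theorem Phi_injective : Function.Injective (Phi k) := by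
  obtain ⟨Θ, hΘ⟩ := exists_Theta k
  have h := lift_gF_injective k (N := Nd)
  rw [← hΘ] at h
  exact Function.Injective.of_comp (f := Θ) (g := Phi k) (by simpa using h)

/-- The graph of the special character over the small subalgebra is the graph of a function. -/
theorem GamE_zero (c : k) (hc : ((0 : FF k), c) ∈ GamE k) : c = 0 := by
  let Ψ : FreeAlgebra k (Gn Nd) →ₐ[k] FF k × k :=
    (Phi k).prod (FreeAlgebra.lift k (fun g => valG k (gnGI g)))
  have hle : GamE k ≤ Ψ.range := by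
    apply Algebra.adjoin_le
    rintro _ ⟨g, hg, rfl⟩
    refine mem_of_rel (fun g => (ev k g, valG k g)) ?_ ?_
      (Ψ.range.toSubring.toNonUnitalSubring) ?_ g hg
    · intro f n
      ext
      · exact zF_rel1 k f n
      · simp [valG]
    · intro f n
      ext
      · exact zF_rel2 k f n
      · simp [valG]
    · intro g
      exact ⟨FreeAlgebra.ι k g, by simp [Ψ, Phi]⟩
  obtain ⟨a, ha⟩ := hle hc
  have h1 : Phi k a = 0 := congrArg Prod.fst ha
  have h2 : a = 0 := Phi_injective k (by rw [h1, map_zero])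
  have h3 : (FreeAlgebra.lift k (fun g => valG k (gnGI g))) a = c := congrArg Prod.snd ha
  rw [← h3, h2, map_zero]

theorem Gam_zero (c : k) (hc : ((0 : FF k), c) ∈ Gam k) : c = 0 := by
  obtain ⟨L, hL⟩ := exists_moveGam k _ hc
  obtain ⟨h, -, -, hh⟩ := exists_move L ∅ (by simp) 0
  have := hL h hh
  simp only [map_zero] at this
  exact GamE_zero k c this

/-- The special character of the big subalgebra. -/
theorem exists_char : ∃ ε : AA k →ₐ[k] k, ∀ g : GI, ∀ hg : ev k g ∈ AA k,
    ε ⟨ev k g, hg⟩ = valG k g := by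
  let π : Gam k →ₐ[k] AA k := ((AlgHom.fst k (FF k) k).comp (Gam k).val).codRestrict (AA k) (by
    intro x
    rw [← Gam_map_fst]
    exact ⟨x, x.2, rfl⟩)
  have hinj : Function.Injective π := by
    rw [injective_iff_map_eq_zero]
    rintro ⟨⟨x, c⟩, hx⟩ h
    have hx0 : x = 0 := congrArg Subtype.val h
    subst hx0
    have := Gam_zero k c hx
    subst this
    rfl
  have hsurj : Function.Surjective π := by
    rintro ⟨x, hx⟩
    have hx' := hx
    rw [← Gam_map_fst] at hx'
    obtain ⟨p, hp, rfl⟩ := hx'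
    exact ⟨⟨p, hp⟩, rfl⟩
  let E := AlgEquiv.ofBijective π ⟨hinj, hsurj⟩
  refine ⟨((AlgHom.snd k (FF k) k).comp (Gam k).val).comp E.symm.toAlgHom, ?_⟩
  intro g hg
  have hmem : (ev k g, valG k g) ∈ Gam k := Algebra.subset_adjoin ⟨g, rfl⟩
  have : E.symm ⟨ev k g, hg⟩ = ⟨(ev k g, valG k g), hmem⟩ := by
    rw [AlgEquiv.symm_apply_eq]
    rfl
  change ((AlgHom.snd k (FF k) k).comp (Gam k).val) (E.symm ⟨ev k g, hg⟩) = valG k g
  rw [this]
  rfl

/-- The small subalgebra is free. -/
noncomputable def AEequiv : FreeAlgebra k (Gn Nd) ≃ₐ[k] AE k :=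
  (AlgEquiv.ofInjective (Phi k) (Phi_injective k)).trans
    (Subalgebra.equivOfEq _ _ (Phi_range k))

theorem AEequiv_apply (a : FreeAlgebra k (Gn Nd)) : (AEequiv k a : FF k) = Phi k a := rfl

end

end Pool.Agent.H97
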