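import Pool.Agent.H97.Main2

set_option autoImplicit false

namespace Pool.Agent.H97

universe u v w w'

section Gen

variable {k : Type u} [Field k]

/-- The values of characters at an element of a free algebra depend on finitely many variables. -/
theorem exists_finset_agree {Y : Type v} (a : FreeAlgebra k Y) :
    ∃ T : Finset Y, ∀ φ ψ : FreeAlgebra k Y →ₐ[k] k,
      (∀ y ∈ T, φ (FreeAlgebra.ι k y) = ψ (FreeAlgebra.ι k y)) → φ a = ψ a := by
  classical
  have ha : a ∈ Algebra.adjoin k (Set.range (FreeAlgebra.ι k (X := Y))) := by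
    rw [FreeAlgebra.adjoin_range_ι]; exact Algebra.mem_top
  induction ha using Algebra.adjoin_induction with
  | mem x hx =>
    obtain ⟨v, rfl⟩ := hx
    exact ⟨{v}, fun φ ψ h => h v (Finset.mem_singleton_self v)⟩
  | algebraMap r => exact ⟨∅, fun φ ψ _ => by rw [AlgHom.commutes, AlgHom.commutes]⟩
  | add x y _ _ hx hy =>
    obtain ⟨L1, h1⟩ := hx
    obtain ⟨L2, h2⟩ := hy
    refine ⟨L1 ∪ L2, fun φ ψ h => ?_⟩
    rw [map_add, map_add, h1 φ ψ (fun y hy => h y (Finset.mem_union_left _ hy)),
      h2 φ ψ (fun y hy => h y (Finset.mem_union_right _ hy))]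
  | mul x y _ _ hx hy =>
    obtain ⟨L1, h1⟩ := hx
    obtain ⟨L2, h2⟩ := hy
    refine ⟨L1 ∪ L2, fun φ ψ h => ?_⟩
    rw [map_mul, map_mul, h1 φ ψ (fun y hy => h y (Finset.mem_union_left _ hy)),
      h2 φ ψ (fun y hy => h y (Finset.mem_union_right _ hy))]

/-- Criterion for an algebra to be not free. -/
theorem not_free_of {A : Type v} [Ring A] [Algebra k A] {I : Type w} (g : I → A)
    (S : Set I) (hS : S.Countable) (ε : A →ₐ[k] k)
    (h2 : ∀ ε' : A →ₐ[k] k, (∀ i ∈ S, ε' (g i) = ε (g i)) → ε' = ε)
    (h3 : ∀ C : Set A, C.Countable → Algebra.adjoin k C ≠ ⊤)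
    (Y : Type w') (e : A ≃ₐ[k] FreeAlgebra k Y) : False := by
  classical
  choose T hT using fun a : FreeAlgebra k Y => exists_finset_agree (k := k) a
  let Y0 : Set Y := ⋃ i ∈ S, (T (e (g i)) : Set Y)
  have hY0 : Y0.Countable := hS.biUnion (fun i _ => (T (e (g i))).countable_toSet)
  have hne : Y0 ≠ Set.univ := by
    intro h
    have hc : (Set.range (FreeAlgebra.ι k (X := Y))).Countable := by
      rw [← Set.image_univ, ← h]
      exact hY0.image _
    apply h3 (e.symm.toAlgHom '' (Set.range (FreeAlgebra.ι k (X := Y)))) (hc.image _)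
    rw [← AlgHom.map_adjoin, FreeAlgebra.adjoin_range_ι, Algebra.map_top]
    rw [AlgHom.range_eq_top]
    exact e.symm.surjective
  obtain ⟨y, hy⟩ := (Set.ne_univ_iff_exists_notMem _).1 hne
  let φ : FreeAlgebra k Y →ₐ[k] k := ε.comp e.symm.toAlgHom
  let ψ : FreeAlgebra k Y →ₐ[k] k := FreeAlgebra.lift k
    (fun y' => if y' = y then φ (FreeAlgebra.ι k y') + 1 else φ (FreeAlgebra.ι k y'))
  have hagree : ∀ i ∈ S, ψ (e (g i)) = φ (e (g i)) := by
    intro i hi
    apply hT
    intro y' hy'
    have : y' ≠ y := by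
      rintro rfl
      exact hy (Set.mem_biUnion hi hy')
    simp [ψ, this]
  have hε : ψ.comp e.toAlgHom = ε := by
    apply h2
    intro i hi
    have := hagree i hi
    simpa [φ] using this
  have h4 : ψ (FreeAlgebra.ι k y) = φ (FreeAlgebra.ι k y) := by
    have := congrArg (fun χ => χ (e.symm (FreeAlgebra.ι k y))) hε
    simpa [φ] using this
  have h5 : ψ (FreeAlgebra.ι k y) = φ (FreeAlgebra.ι k y) + 1 := by
    simp [ψ]
  rw [h5] at h4
  simp at h4

end Gen

section

variable (k : Type u) [Field k]

theorem ev_mem_AA (g : GI) : ev k g ∈ AA k := Algebra.subset_adjoin ⟨g, rfl⟩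

/-- The generators, as elements of the big subalgebra. -/
noncomputable def evA (g : GI) : AA k := ⟨ev k g, ev_mem_AA k g⟩

theorem adjoin_evA : Algebra.adjoin k (Set.range (evA k)) = ⊤ := by
  rw [eq_top_iff]
  rintro ⟨a, ha⟩ -
  unfold AA at ha
  have : ∀ hmem : a ∈ AA k, (⟨a, hmem⟩ : AA k) ∈ Algebra.adjoin k (Set.range (evA k)) := by
    induction ha using Algebra.adjoin_induction with
    | mem x hx =>
      obtain ⟨g, rfl⟩ := hx
      intro hmem
      exact Algebra.subset_adjoin ⟨g, rfl⟩
    | algebraMap r =>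
      intro hmem
      exact (Algebra.adjoin k (Set.range (evA k))).algebraMap_mem r
    | add x y hx0 hy0 hx hy =>
      intro hmem
      exact add_mem (hx hx0) (hy hy0)
    | mul x y hx0 hy0 hx hy =>
      intro hmem
      exact mul_mem (hx hx0) (hy hy0)
  exact this _

/-- Indices of the countably many special generators. -/
def GI.core : Set GI := {g | match g with
  | .z1 _ _ => False
  | .z2 _ _ => False
  | _ => True}

theorem core_countable : GI.core.Countable := by
  have : GI.core ⊆ Set.range (fun p : Fin 6 × Nd =>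
      match p with
      | (0, s) => GI.a s
      | (1, s) => GI.c s
      | (2, s) => GI.d s
      | (3, s) => GI.q s
      | (4, s) => GI.b1 s
      | (5, s) => GI.b2 s) := by
    intro g hg
    cases g with
    | a s => exact ⟨(0, s), rfl⟩
    | c s => exact ⟨(1, s), rfl⟩
    | d s => exact ⟨(2, s), rfl⟩
    | q s => exact ⟨(3, s), rfl⟩
    | b1 s => exact ⟨(4, s), rfl⟩
    | b2 s => exact ⟨(5, s), rfl⟩
    | z1 f n => exact hg.elim
    | z2 f n => exact hg.elim
  exact (Set.countable_range _).mono this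

theorem char_unique (ε ε' : AA k →ₐ[k] k) (hε : ∀ g, ε (evA k g) = valG k g)
    (h : ∀ g ∈ GI.core, ε' (evA k g) = valG k g) : ε' = ε := by
  have r1 : ∀ f n, evA k (.z1 f n) = evA k (.z1 f (n + 1)) +
      evA k (.a (res f n)) * evA k (.z1 f (n + 1)) + evA k (.q (res f n)) * evA k (.z2 f (n + 1)) +
      evA k (.b1 (res f n)) := fun f n => Subtype.ext (zF_rel1 k f n)
  have r2 : ∀ f n, evA k (.z2 f n) = evA k (.c (res f n)) * evA k (.z1 f (n + 1)) +
      evA k (.z2 f (n + 1)) + evA k (.d (res f n)) * evA k (.z2 f (n + 1)) +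
      evA k (.b2 (res f n)) := fun f n => Subtype.ext (zF_rel2 k f n)
  have key : ∀ g, ε' (evA k g) = valG k g := by
    intro g
    cases g with
    | a s => exact h _ trivial
    | c s => exact h _ trivial
    | d s => exact h _ trivial
    | q s => exact h _ trivial
    | b1 s => exact h _ trivial
    | b2 s => exact h _ trivial
    | z1 f n =>
      rw [r1, map_add, map_add, map_add, map_mul, map_mul, h (.a _) trivial, h (.q _) trivial,
        h (.b1 _) trivial]
      simp [valG]
    | z2 f n =>
      rw [r2, map_add, map_add, map_add, map_mul, map_mul, h (.c _) trivial, h (.d _) trivial,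
        h (.b2 _) trivial]
      simp [valG]
  apply AlgHom.ext_of_adjoin_eq_top (adjoin_evA k)
  rintro _ ⟨g, rfl⟩
  rw [key, hε]

theorem not_countable_Br : ¬ (Set.univ : Set Br).Countable := by
  have h2 : Cardinal.mk Br = 2 ^ Cardinal.aleph0 := by simp [Br]
  intro h
  rw [Set.countable_univ_iff] at h
  have h1 : Cardinal.mk Br ≤ Cardinal.aleph0 := Cardinal.mk_le_aleph0_iff.2 h
  rw [h2] at h1
  exact absurd h1 (not_le.2 (Cardinal.cantor _))

theorem not_countably_generated (C : Set (AA k)) (hC : C.Countable) :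
    Algebra.adjoin k C ≠ ⊤ := by
  classical
  intro htop
  choose T hT using fun a : FF k => exists_finset_agree (k := k) a
  let V0 : Set Var := ⋃ c ∈ C, (T (c : FF k) : Set Var)
  have hV0 : V0.Countable := hC.biUnion (fun c _ => (T (c : FF k)).countable_toSet)
  have hnot : ∃ f : Br, Var.t1 f ∉ V0 := by
    by_contra hcon
    push Not at hcon
    have hinj : Function.Injective Var.t1 := fun a b h => by injection h
    have : (Set.univ : Set Br).Countable := by
      have := hV0.preimage_of_injOn (f := Var.t1) hinj.injOn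
      refine this.mono ?_
      intro f _
      exact hcon f
    exact not_countable_Br this
  obtain ⟨f, hf⟩ := hnot
  let φ : FF k →ₐ[k] k := FreeAlgebra.lift k (fun _ => 0)
  let ψ : FF k →ₐ[k] k := FreeAlgebra.lift k (fun v => if v = Var.t1 f then 1 else 0)
  have hag : φ.comp (AA k).val = ψ.comp (AA k).val := by
    apply AlgHom.ext_of_adjoin_eq_top htop
    intro c hc
    apply hT
    intro v hv
    have : v ≠ Var.t1 f := by
      rintro rfl
      exact hf (Set.mem_biUnion hc hv)
    simp [φ, ψ, this]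
  have h1 := congrArg (fun χ => χ (evA k (.z1 f 0))) hag
  have h2 : ((evA k (.z1 f 0) : AA k) : FF k) = FreeAlgebra.ι k (Var.t1 f) := rfl
  simp only [AlgHom.comp_apply, Subalgebra.coe_val, h2] at h1
  simp [φ, ψ] at h1

/-- The big subalgebra is not free. -/
theorem AA_not_free (Y : Type v) : IsEmpty (AA k ≃ₐ[k] FreeAlgebra k Y) := by
  constructor
  intro e
  obtain ⟨ε, hε⟩ := exists_char k
  refine not_free_of (evA k) GI.core core_countable ε ?_ (not_countably_generated k) Y e
  intro ε' h
  refine char_unique k ε ε' (fun g => hε g _) (fun g hg => ?_)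
  rw [← hε g (ev_mem_AA k g)]
  exact h g hg

end

end Pool.Agent.H97
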