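import Pool.Agent.H97.Main3

set_option autoImplicit false

namespace Pool.Agent.H97

universe u v w w'

section Gen

variable {k : Type u} [Field k]

/-- Subalgebras generated by free variables are free. -/
theorem adjoin_vars_free {X : Type v} (S : Set X) :
    Nonempty (Algebra.adjoin k (FreeAlgebra.ι k '' S) ≃ₐ[k] FreeAlgebra k S) := by
  classical
  let j : FreeAlgebra k S →ₐ[k] FreeAlgebra k X :=
    FreeAlgebra.lift k (fun x : S => FreeAlgebra.ι k (x : X))
  let r : FreeAlgebra k X →ₐ[k] FreeAlgebra k S :=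
    FreeAlgebra.lift k (fun x => if h : x ∈ S then FreeAlgebra.ι k ⟨x, h⟩ else 0)
  have hr : r.comp j = AlgHom.id k _ := by
    apply FreeAlgebra.hom_ext
    funext x
    simp [r, j]
  have hj : Function.Injective j := by
    apply Function.Injective.of_comp (f := r)
    have : (r ∘ j) = id := by
      funext x
      exact congrArg (fun φ => φ x) hr
    rw [this]
    exact Function.injective_id
  have hrange : j.range = Algebra.adjoin k (FreeAlgebra.ι k '' S) := by
    have := Algebra.adjoin_range_eq_range_freeAlgebra_lift k S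
      (fun x : S => FreeAlgebra.ι k (x : X))
    rw [← this]
    congr 1
    ext y
    simp
  exact ⟨((AlgEquiv.ofInjective j hj).trans (Subalgebra.equivOfEq _ _ hrange)).symm⟩

end Gen

section

variable (k : Type u) [Field k]

/-- The subalgebra of the small free algebra. -/
noncomputable def AE' : Subalgebra k (FE k) := (AA k).comap (FE k).val

theorem AE'_free : Nonempty (AE' k ≃ₐ[k] FreeAlgebra k (Gn Nd)) := by
  let Φ1 : FreeAlgebra k (Gn Nd) →ₐ[k] FE k := (Phi k).codRestrict (FE k) (by
    intro x
    apply AE_le_FE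
    rw [← Phi_range]
    exact ⟨x, rfl⟩)
  let Φ2 : FreeAlgebra k (Gn Nd) →ₐ[k] AE' k := Φ1.codRestrict (AE' k) (by
    intro x
    change Phi k x ∈ AA k
    apply AE_le_AA
    rw [← Phi_range]
    exact ⟨x, rfl⟩)
  have hb : Function.Bijective Φ2 := by
    constructor
    · intro x y h
      apply Phi_injective k
      exact congrArg (fun z : AE' k => ((z : FE k) : FF k)) h
    · rintro ⟨⟨a, ha⟩, ha'⟩
      have : a ∈ AE k := AA_inf_FE k ha' ha
      rw [← Phi_range] at this
      obtain ⟨x, hx⟩ := this
      refine ⟨x, ?_⟩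
      apply Subtype.ext
      apply Subtype.ext
      exact hx
  exact ⟨(AlgEquiv.ofBijective Φ2 hb).symm⟩

theorem FE_free : Nonempty (FE k ≃ₐ[k] FreeAlgebra k {v : Var | v.Ez}) :=
  adjoin_vars_free _

/-- The homogeneity property behind the Tarski-Vaught test. -/
theorem exists_aut (n : ℕ) (x : Fin n → FE k) (a : FF k) :
    ∃ h : TAut, (∀ i, h.alg k (x i : FF k) = x i) ∧ h.alg k a ∈ FE k := by
  obtain ⟨L1, N, e1, h1⟩ := exists_fix_finset k Finset.univ (fun i => (x i : FF k))
    (fun i _ => (x i).2)
  obtain ⟨L0, h0⟩ := exists_moveFE k a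
  obtain ⟨h, ha, hb, hc⟩ := exists_move L0 L1 e1 N
  exact ⟨h, fun i => h1 h ha hb i (Finset.mem_univ i), h0 h hc⟩

end

end Pool.Agent.H97
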