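import Pool.Agent.H97.Main4

set_option autoImplicit false

namespace Pool.Agent.H97

open FirstOrder FirstOrder.Language

universe u v w w'

/-- An embedding is elementary when the big structure has enough automorphisms. -/
theorem model_iff_of_homog {L : FirstOrder.Language.{u, v}} {M : Type w} {N : Type w'}
    [L.Structure M] [L.Structure N] (f : M ↪[L] N)
    (h : ∀ (n : ℕ) (x : Fin n → M) (a : N),
      ∃ σ : N ≃[L] N, (∀ i, σ (f (x i)) = f (x i)) ∧ ∃ b, σ a = f b)
    (T : L.Theory) : M ⊨ T ↔ N ⊨ T := by
  have htv : ∀ (n : ℕ) (φ : L.BoundedFormula Empty (n + 1)) (x : Fin n → M) (a : N),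
        φ.Realize default (Fin.snoc (f ∘ x) a : _ → N) →
          ∃ b : M, φ.Realize default (Fin.snoc (f ∘ x) (f b) : _ → N) := by
    intro n φ x a hφ
    obtain ⟨σ, h1, b, h2⟩ := h n x a
    refine ⟨b, ?_⟩
    have h3 := (StrongHomClass.realize_boundedFormula (g := σ) φ (v := default)
      (xs := (Fin.snoc (f ∘ x) a : _ → N))).2 hφ
    have e1 : (σ ∘ (Fin.snoc (f ∘ x) a : Fin (n + 1) → N)) = Fin.snoc (f ∘ x) (f b) := by
      rw [Fin.comp_snoc]
      congr 1
      funext i
      exact h1 i
    have e2 : (σ ∘ (default : Empty → N)) = default := Subsingleton.elim _ _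
    rw [e1, e2] at h3
    exact h3
  exact (f.toElementaryEmbedding htv).theory_model_iff T

/-- The language of algebras over `k` with a unary predicate, as in the frozen statement. -/
abbrev LL (k : Type u) : FirstOrder.Language.{u, 0} :=
  ⟨fun n => {_b : Bool // n = 2} ⊕ {_c : k // n = 0}, fun n => {_u : Unit // n = 1}⟩

/-- The structure of a pair. -/
@[instance_reducible]
def SS (k : Type u) [Field k] (F : Type v) [Ring F] [Algebra k F] (A : Subalgebra k F) :
    (LL k).Structure F :=
  { funMap := fun {n} f xs =>
      Sum.elim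
        (fun b : {_b : Bool // n = 2} =>
          if b.1 then xs (Fin.cast b.2.symm 0) + xs (Fin.cast b.2.symm 1)
          else xs (Fin.cast b.2.symm 0) * xs (Fin.cast b.2.symm 1))
        (fun c : {_c : k // n = 0} => algebraMap k F c.1) f,
    RelMap := fun {n} _ xs => ∀ i, xs i ∈ A }

theorem pair_model_iff (k : Type u) [Field k] (T : (LL k).Theory) :
    @Theory.Model (LL k) (FE k) (SS k (FE k) (AE' k)) T ↔
      @Theory.Model (LL k) (FF k) (SS k (FF k) (AA k)) T := by
  letI : (LL k).Structure (FE k) := SS k (FE k) (AE' k)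
  letI : (LL k).Structure (FF k) := SS k (FF k) (AA k)
  let f : FE k ↪[LL k] FF k :=
    { toFun := Subtype.val
      inj' := Subtype.val_injective
      map_fun' := by
        intro n g xs
        rcases g with ⟨b, rfl⟩ | ⟨c, rfl⟩
        · cases b <;> rfl
        · rfl
      map_rel' := by
        intro n r xs
        rfl }
  refine model_iff_of_homog f ?_ T
  intro n x a
  obtain ⟨h, h1, h2⟩ := exists_aut k n x a
  let σ : FF k ≃[LL k] FF k :=
    { toEquiv := (h.alg k).toEquiv
      map_fun' := by
        intro n g xs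
        rcases g with ⟨b, rfl⟩ | ⟨c, rfl⟩
        · cases b
          · exact map_mul (h.alg k) _ _
          · exact map_add (h.alg k) _ _
        · exact AlgEquiv.commutes (h.alg k) c
      map_rel' := by
        intro n r xs
        exact forall_congr' (fun i => TAut.alg_mem_AA_iff k h) }
  exact ⟨σ, fun i => h1 i, ⟨h.alg k a, h2⟩, rfl⟩

end Pool.Agent.H97
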