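import Pool.Agent.H97.Main5

set_option autoImplicit false

namespace Pool.Agent.H97

universe u v w w'

section Gen

variable (k : Type u) [Field k]

/-- The free non-unital associative algebra. -/
abbrev NF (X : Type v) := MonoidAlgebra k (FreeSemigroup X)

/-- The generators of the free non-unital algebra. -/
noncomputable def nι {X : Type v} (x : X) : NF k X := MonoidAlgebra.single (FreeSemigroup.of x) 1

/-- The universal property of the free non-unital algebra. -/
noncomputable def nlift {X : Type v} {B : Type w} [NonUnitalRing B] [Module k B]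
    [IsScalarTower k B B] [SMulCommClass k B B] (f : X → B) : NF k X →ₙₐ[k] B :=
  MonoidAlgebra.liftMagma k (FreeSemigroup.lift f)

theorem nlift_nι {X : Type v} {B : Type w} [NonUnitalRing B] [Module k B]
    [IsScalarTower k B B] [SMulCommClass k B B] (f : X → B) (x : X) :
    nlift k f (nι k x) = f x := by
  simp [nlift, nι]

theorem nhom_ext {X : Type v} {B : Type w} [NonUnitalRing B] [Module k B]
    (φ ψ : NF k X →ₙₐ[k] B)
    (h : ∀ x, φ (nι k x) = ψ (nι k x)) : φ = ψ := by
  apply MonoidAlgebra.nonUnitalAlgHom_ext'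
  apply FreeSemigroup.hom_ext
  funext x
  exact h x

/-- The inclusion of the free non-unital algebra in the free algebra. -/
noncomputable def nemb (X : Type v) : NF k X →ₙₐ[k] FreeAlgebra k X :=
  nlift k (FreeAlgebra.ι k)

@[simp] theorem nemb_nι {X : Type v} (x : X) : nemb k X (nι k x) = FreeAlgebra.ι k x :=
  nlift_nι k _ x

/-- Words as elements of the free monoid. -/
def toWord (X : Type v) : FreeSemigroup X →ₙ* FreeMonoid X := FreeSemigroup.lift FreeMonoid.of

theorem toWord_toList {X : Type v} (s : FreeSemigroup X) :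
    (toWord X s).toList = s.head :: s.tail := by
  induction s using FreeSemigroup.recOnMul with
  | ih1 x => rfl
  | ih2 x y hx hy =>
    rw [map_mul, FreeMonoid.toList_mul, hx, hy]
    simp [FreeSemigroup.of]

theorem toWord_injective (X : Type v) : Function.Injective (toWord X) := by
  intro s t h
  have := congrArg FreeMonoid.toList h
  rw [toWord_toList, toWord_toList] at this
  simp only [List.cons.injEq] at this
  cases s; cases t
  simp_all

theorem equiv_nemb {X : Type v} (b : NF k X) :
    FreeAlgebra.equivMonoidAlgebraFreeMonoid (nemb k X b) =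
      MonoidAlgebra.mapDomain (toWord X) b := by
  let φ : NF k X →ₙₐ[k] MonoidAlgebra k (FreeMonoid X) :=
    ((FreeAlgebra.equivMonoidAlgebraFreeMonoid (R := k) (X := X)).toAlgHom :
      FreeAlgebra k X →ₙₐ[k] MonoidAlgebra k (FreeMonoid X)).comp (nemb k X)
  have h : φ = MonoidAlgebra.mapDomainNonUnitalAlgHom k k (toWord X) := by
    apply nhom_ext
    intro x
    change FreeAlgebra.equivMonoidAlgebraFreeMonoid (nemb k X (nι k x)) =
      MonoidAlgebra.mapDomain (toWord X) (nι k x)
    rw [nemb_nι, nι, MonoidAlgebra.mapDomain_single]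
    simp [toWord, FreeAlgebra.equivMonoidAlgebraFreeMonoid, MonoidAlgebra.of_apply]
  exact congrArg (fun ψ => ψ b) h

theorem nemb_injective (X : Type v) : Function.Injective (nemb k X) := by
  intro a b h
  have := congrArg (FreeAlgebra.equivMonoidAlgebraFreeMonoid (R := k) (X := X)) h
  rw [equiv_nemb, equiv_nemb] at this
  exact MonoidAlgebra.mapDomain_injective (toWord_injective X) this

theorem aug_nemb {X : Type v} (b : NF k X) : FreeAlgebra.algebraMapInv (nemb k X b) = 0 := by
  let φ : NF k X →ₙₐ[k] k :=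
    ((FreeAlgebra.algebraMapInv (R := k) (X := X)) : FreeAlgebra k X →ₙₐ[k] k).comp (nemb k X)
  have h : φ = 0 := by
    apply nhom_ext
    intro x
    change FreeAlgebra.algebraMapInv (nemb k X (nι k x)) = 0
    simp [FreeAlgebra.algebraMapInv]
  exact congrArg (fun ψ => ψ b) h

theorem exists_nemb_add {X : Type v} (a : FreeAlgebra k X) :
    ∃ (c : k) (b : NF k X), a = algebraMap k _ c + nemb k X b := by
  have ha : a ∈ Algebra.adjoin k (Set.range (FreeAlgebra.ι k (X := X))) := by
    rw [FreeAlgebra.adjoin_range_ι]; exact Algebra.mem_top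
  induction ha using Algebra.adjoin_induction with
  | mem x hx =>
    obtain ⟨v, rfl⟩ := hx
    exact ⟨0, nι k v, by simp⟩
  | algebraMap r => exact ⟨r, 0, by simp⟩
  | add x y _ _ hx hy =>
    obtain ⟨c1, b1, rfl⟩ := hx
    obtain ⟨c2, b2, rfl⟩ := hy
    refine ⟨c1 + c2, b1 + b2, ?_⟩
    rw [map_add, map_add]
    abel
  | mul x y _ _ hx hy =>
    obtain ⟨c1, b1, rfl⟩ := hx
    obtain ⟨c2, b2, rfl⟩ := hy
    refine ⟨c1 * c2, c1 • b2 + c2 • b1 + b1 * b2, ?_⟩
    rw [map_add, map_add, map_mul, map_mul, map_smul, map_smul, Algebra.smul_def, Algebra.smul_def,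
      Algebra.commutes c2 (nemb k X b1)]
    simp only [mul_add, add_mul]
    abel

theorem exists_nemb {X : Type v} (a : FreeAlgebra k X) (ha : FreeAlgebra.algebraMapInv a = 0) :
    ∃ b : NF k X, nemb k X b = a := by
  obtain ⟨c, b, rfl⟩ := exists_nemb_add k a
  rw [map_add, aug_nemb, add_zero, AlgHom.commutes] at ha
  have hc : c = 0 := ha
  refine ⟨b, ?_⟩
  rw [hc, map_zero, zero_add]

/-- Restriction of an augmented homomorphism to the non-unital free algebras. -/
theorem exists_restrict {X : Type v} {Z : Type w} (ψ : FreeAlgebra k X →ₐ[k] FreeAlgebra k Z)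
    (h : ∀ x, FreeAlgebra.algebraMapInv (ψ (FreeAlgebra.ι k x)) = 0) :
    ∃ ψn : NF k X →ₙₐ[k] NF k Z, ∀ b, nemb k Z (ψn b) = ψ (nemb k X b) := by
  choose g hg using fun x => exists_nemb k (ψ (FreeAlgebra.ι k x)) (h x)
  refine ⟨nlift k g, ?_⟩
  let φ1 : NF k X →ₙₐ[k] FreeAlgebra k Z := (nemb k Z).comp (nlift k g)
  let φ2 : NF k X →ₙₐ[k] FreeAlgebra k Z :=
    (ψ : FreeAlgebra k X →ₙₐ[k] FreeAlgebra k Z).comp (nemb k X)
  have h12 : φ1 = φ2 := by
    apply nhom_ext
    intro x
    change nemb k Z (nlift k g (nι k x)) = ψ (nemb k X (nι k x))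
    rw [nlift_nι, hg, nemb_nι]
  intro b
  exact congrArg (fun ψ => ψ b) h12

theorem aug_of_aug {X : Type v} {Z : Type w} (ψ : FreeAlgebra k X →ₐ[k] FreeAlgebra k Z)
    (h : ∀ x, FreeAlgebra.algebraMapInv (ψ (FreeAlgebra.ι k x)) = 0) (a : FreeAlgebra k X) :
    FreeAlgebra.algebraMapInv (ψ a) = FreeAlgebra.algebraMapInv a := by
  have : (FreeAlgebra.algebraMapInv.comp ψ) = FreeAlgebra.algebraMapInv (R := k) (X := X) := by
    apply FreeAlgebra.hom_ext
    funext x
    simp only [Function.comp_apply, AlgHom.comp_apply, h]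
    simp [FreeAlgebra.algebraMapInv]
  exact congrArg (fun φ => φ a) this

end Gen

end Pool.Agent.H97
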