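import Pool.Agent.H97.NU1

set_option autoImplicit false

namespace Pool.Agent.H97

universe u v w w'

section

variable (k : Type u) [Field k]

theorem aug_ev (g : GI) : FreeAlgebra.algebraMapInv (ev k g) = 0 := by
  have hι : ∀ v : Var, FreeAlgebra.algebraMapInv (FreeAlgebra.ι k v) = 0 := by
    intro v; simp [FreeAlgebra.algebraMapInv]
  have hz : ∀ f n, FreeAlgebra.algebraMapInv (zF k f n).1 = 0 ∧
      FreeAlgebra.algebraMapInv (zF k f n).2 = 0 := by
    intro f n
    induction n with
    | zero => exact ⟨hι _, hι _⟩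
    | succ n ih =>
      have h1 := ih.1
      have h2 := ih.2
      constructor
      · change FreeAlgebra.algebraMapInv (inv2 _ _ _ (zF k f n - _)).1 = 0
        simp only [inv2, Prod.fst_sub, Prod.snd_sub, map_sub, map_mul, h1, h2, hι]
        simp
      · change FreeAlgebra.algebraMapInv (inv2 _ _ _ (zF k f n - _)).2 = 0
        simp only [inv2, Prod.fst_sub, Prod.snd_sub, map_sub, map_mul, h1, h2, hι]
        simp
  cases g with
  | a s => simp [ev, hι]
  | c s => simp [ev, hι]
  | d s => simp [ev, hι]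
  | q s => simp [ev, hι]
  | b1 s => simp [ev, hι]
  | b2 s => simp [ev, hι]
  | z1 f n => exact (hz f n).1
  | z2 f n => exact (hz f n).2

/-- The big non-unital subalgebra. -/
noncomputable def AAn : NonUnitalSubalgebra k (NF k Var) :=
  (AA k).toNonUnitalSubalgebra.comap (nemb k Var)

/-- The small free non-unital algebra. -/
noncomputable def FEn : NonUnitalSubalgebra k (NF k Var) :=
  (FE k).toNonUnitalSubalgebra.comap (nemb k Var)

/-- The subalgebra of the small free non-unital algebra. -/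
noncomputable def AEn : NonUnitalSubalgebra k (FEn k) :=
  (AAn k).comap (NonUnitalSubalgebraClass.subtype (FEn k))

theorem mem_AAn (b : NF k Var) : b ∈ AAn k ↔ nemb k Var b ∈ AA k := Iff.rfl

theorem mem_FEn (b : NF k Var) : b ∈ FEn k ↔ nemb k Var b ∈ FE k := Iff.rfl

theorem FEn_free : ∃ e : NF k {v : Var | v.Ez} →ₙₐ[k] FEn k, Function.Bijective e := by
  let j : FreeAlgebra k {v : Var | v.Ez} →ₐ[k] FreeAlgebra k Var :=
    FreeAlgebra.lift k (fun x => FreeAlgebra.ι k (x : Var))
  have hjι : ∀ x, FreeAlgebra.algebraMapInv (j (FreeAlgebra.ι k x)) = 0 := by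
    intro x; simp [j, FreeAlgebra.algebraMapInv]
  obtain ⟨jn, hjn⟩ := exists_restrict k j hjι
  have hrange : j.range = FE k := by
    have := Algebra.adjoin_range_eq_range_freeAlgebra_lift k {v : Var | v.Ez}
      (fun x : {v : Var | v.Ez} => FreeAlgebra.ι k (x : Var))
    rw [← this]
    unfold FE
    congr 1
    ext y
    simp
  have hmem : ∀ b, jn b ∈ FEn k := by
    intro b
    rw [mem_FEn, hjn, ← hrange]
    exact ⟨_, rfl⟩
  have hj : Function.Injective j := by
    classical
    let r : FreeAlgebra k Var →ₐ[k] FreeAlgebra k {v : Var | v.Ez} :=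
      FreeAlgebra.lift k (fun x => if h : x ∈ {v : Var | v.Ez} then FreeAlgebra.ι k ⟨x, h⟩ else 0)
    have hr : r.comp j = AlgHom.id k _ := by
      apply FreeAlgebra.hom_ext
      funext x
      have hx : x.1.Ez := x.2
      simp [r, j, hx]
    apply Function.Injective.of_comp (f := r)
    have : (r ∘ j) = id := by
      funext x
      exact congrArg (fun φ => φ x) hr
    rw [this]
    exact Function.injective_id
  let e : NF k {v : Var | v.Ez} →ₙₐ[k] FEn k := NonUnitalAlgHom.codRestrict jn (FEn k) hmem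
  refine ⟨e, ?_, ?_⟩
  · intro a b hab
    have h1 : jn a = jn b := congrArg Subtype.val hab
    have h2 := congrArg (nemb k Var) h1
    rw [hjn, hjn] at h2
    exact nemb_injective k _ (hj h2)
  · rintro ⟨b, hb⟩
    rw [mem_FEn, ← hrange] at hb
    obtain ⟨a, ha⟩ := hb
    have ha' : j a = nemb k Var b := ha
    have h0 : FreeAlgebra.algebraMapInv a = 0 := by
      rw [← aug_of_aug k j hjι, ha', aug_nemb]
    obtain ⟨c, rfl⟩ := exists_nemb k a h0
    refine ⟨c, ?_⟩
    apply Subtype.ext
    apply nemb_injective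
    change nemb k Var (jn c) = nemb k Var b
    rw [hjn, ha']

theorem AEn_free : ∃ e : NF k (Gn Nd) →ₙₐ[k] AEn k, Function.Bijective e := by
  have hι : ∀ x, FreeAlgebra.algebraMapInv (Phi k (FreeAlgebra.ι k x)) = 0 := by
    intro x
    rw [Phi, FreeAlgebra.lift_ι_apply, aug_ev]
  obtain ⟨jn, hjn⟩ := exists_restrict k (Phi k) hι
  have hAE : ∀ b, nemb k Var (jn b) ∈ AE k := by
    intro b
    rw [hjn, ← Phi_range]
    exact ⟨_, rfl⟩
  have hmem : ∀ b, jn b ∈ FEn k := fun b => AE_le_FE k (hAE b)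
  have hmem' : ∀ b, jn b ∈ AAn k := fun b => AE_le_AA k (hAE b)
  let e1 : NF k (Gn Nd) →ₙₐ[k] FEn k := NonUnitalAlgHom.codRestrict jn (FEn k) hmem
  let e : NF k (Gn Nd) →ₙₐ[k] AEn k := NonUnitalAlgHom.codRestrict e1 (AEn k) hmem'
  refine ⟨e, ?_, ?_⟩
  · intro a b hab
    have h1 : jn a = jn b := congrArg (fun z : AEn k => ((z : FEn k) : NF k Var)) hab
    have h2 := congrArg (nemb k Var) h1
    rw [hjn, hjn] at h2
    exact nemb_injective k _ (Phi_injective k h2)
  · rintro ⟨⟨b, hb⟩, hb'⟩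
    have h1 : nemb k Var b ∈ AE k := AA_inf_FE k hb' hb
    rw [← Phi_range] at h1
    obtain ⟨a, ha⟩ := h1
    have ha' : Phi k a = nemb k Var b := ha
    have h0 : FreeAlgebra.algebraMapInv a = 0 := by
      rw [← aug_of_aug k (Phi k) hι, ha', aug_nemb]
    obtain ⟨c, rfl⟩ := exists_nemb k a h0
    refine ⟨c, ?_⟩
    apply Subtype.ext
    apply Subtype.ext
    apply nemb_injective
    change nemb k Var (jn c) = nemb k Var b
    rw [hjn, ha']

theorem AAn_not_free (Y : Type v) (e : NF k Y →ₙₐ[k] AAn k) : ¬ Function.Bijective e := by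
  intro he
  let E : FreeAlgebra k Y →ₐ[k] AA k :=
    FreeAlgebra.lift k (fun y => ⟨nemb k Var (e (nι k y)), (e (nι k y)).2⟩)
  have hE : ∀ b : NF k Y, ((E (nemb k Y b) : AA k) : FF k) = nemb k Var (e b) := by
    let φ1 : NF k Y →ₙₐ[k] FF k :=
      (((AA k).val.comp E : FreeAlgebra k Y →ₐ[k] FF k) : FreeAlgebra k Y →ₙₐ[k] FF k).comp
        (nemb k Y)
    let φ2 : NF k Y →ₙₐ[k] FF k :=
      (nemb k Var).comp ((NonUnitalSubalgebraClass.subtype (AAn k)).comp e)
    have h12 : φ1 = φ2 := by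
      apply nhom_ext
      intro y
      change ((E (nemb k Y (nι k y)) : AA k) : FF k) = nemb k Var (e (nι k y))
      rw [nemb_nι]
      simp [E]
    intro b
    exact congrArg (fun ψ => ψ b) h12
  have hinj : Function.Injective E := by
    rw [injective_iff_map_eq_zero]
    intro a ha
    obtain ⟨c, b, rfl⟩ := exists_nemb_add k a
    have h1 : algebraMap k (FF k) c + nemb k Var (e b) = 0 := by
      rw [← hE]
      have := congrArg Subtype.val ha
      rw [map_add, AlgHom.commutes] at this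
      exact this
    have h2 := congrArg FreeAlgebra.algebraMapInv h1
    rw [map_add, aug_nemb, AlgHom.commutes, map_zero, add_zero] at h2
    have hc : c = 0 := h2
    subst hc
    rw [map_zero, zero_add] at h1
    have h3 : (e b : NF k Var) = 0 := nemb_injective k _ (by rw [h1, map_zero])
    have h4 : e b = 0 := Subtype.ext h3
    have h5 : b = 0 := he.1 (by rw [h4, map_zero])
    rw [h5, map_zero, map_zero, zero_add]
  have hsurj : Function.Surjective E := by
    rintro ⟨x, hx⟩
    obtain ⟨c, b, rfl⟩ := exists_nemb_add k x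
    have hb : b ∈ AAn k := by
      rw [mem_AAn]
      have := sub_mem hx ((AA k).algebraMap_mem c)
      rwa [add_sub_cancel_left] at this
    obtain ⟨b', hb'⟩ := he.2 ⟨b, hb⟩
    refine ⟨algebraMap k _ c + nemb k Y b', ?_⟩
    apply Subtype.ext
    rw [map_add, AlgHom.commutes]
    change algebraMap k (FF k) c + ((E (nemb k Y b') : AA k) : FF k) = _
    rw [hE, hb']
  exact (AA_not_free k Y).false (AlgEquiv.ofBijective E ⟨hinj, hsurj⟩).symm

theorem exists_aut_n (n : ℕ) (x : Fin n → FEn k) (a : NF k Var) :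
    ∃ σ : NF k Var →ₙₐ[k] NF k Var, Function.Bijective σ ∧ (∀ b, σ b ∈ AAn k ↔ b ∈ AAn k) ∧
      (∀ i, σ (x i : NF k Var) = x i) ∧ σ a ∈ FEn k := by
  obtain ⟨h, h1, h2⟩ := exists_aut k n (fun i => ⟨nemb k Var (x i), (x i).2⟩) (nemb k Var a)
  have hι : ∀ v, FreeAlgebra.algebraMapInv ((h.alg k).toAlgHom (FreeAlgebra.ι k v)) = 0 := by
    intro v
    change FreeAlgebra.algebraMapInv (h.alg k (FreeAlgebra.ι k v)) = 0
    rw [TAut.alg_ι]
    simp [FreeAlgebra.algebraMapInv]
  obtain ⟨σ, hσ⟩ := exists_restrict k (h.alg k).toAlgHom hι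
  have hσ' : ∀ b, nemb k Var (σ b) = h.alg k (nemb k Var b) := hσ
  refine ⟨σ, ⟨?_, ?_⟩, ?_, ?_, ?_⟩
  · intro b c hbc
    have := congrArg (nemb k Var) hbc
    rw [hσ', hσ'] at this
    exact nemb_injective k _ ((h.alg k).injective this)
  · intro c
    have h0 : FreeAlgebra.algebraMapInv ((h.alg k).symm (nemb k Var c)) = 0 := by
      rw [← aug_of_aug k (h.alg k).toAlgHom hι]
      change FreeAlgebra.algebraMapInv (h.alg k ((h.alg k).symm (nemb k Var c))) = 0
      rw [AlgEquiv.apply_symm_apply, aug_nemb]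
    obtain ⟨b, hb⟩ := exists_nemb k _ h0
    refine ⟨b, ?_⟩
    apply nemb_injective
    rw [hσ', hb, AlgEquiv.apply_symm_apply]
  · intro b
    rw [mem_AAn, mem_AAn, hσ']
    exact TAut.alg_mem_AA_iff k h
  · intro i
    apply nemb_injective
    rw [hσ']
    exact h1 i
  · rw [mem_FEn, hσ']
    exact h2

end

end Pool.Agent.H97
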