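import Mathlib

set_option autoImplicit false

namespace Pool.Agent.H97

/-- Branches of the binary tree. -/
abbrev Br : Type := ℕ → Bool

/-- Nodes of the binary tree: finite binary words. -/
abbrev Nd : Type := Σ n : ℕ, (Fin n → Bool)

/-- The node at level `n` on a branch. -/
def res (f : Br) (n : ℕ) : Nd := ⟨n, fun i => f i⟩

/-- The branch that continues a node by zeros. -/
def ext (s : Nd) : Br := fun i => if h : i < s.1 then s.2 ⟨i, h⟩ else false

/-- The eventually zero branches. -/
def EZ : Set Br := Set.range ext

@[simp] theorem res_fst (f : Br) (n : ℕ) : (res f n).1 = n := rfl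

theorem res_eq_iff {f g : Br} {n : ℕ} : res f n = res g n ↔ ∀ i < n, f i = g i := by
  unfold res
  constructor
  · intro h i hi
    have := eq_of_heq (Sigma.mk.inj h).2
    exact congrFun this ⟨i, hi⟩
  · intro h
    congr 1
    funext i
    exact h i i.2

@[simp] theorem res_ext (s : Nd) : res (ext s) s.1 = s := by
  obtain ⟨n, s⟩ := s
  simp [res, ext]

theorem ext_mem_EZ (s : Nd) : ext s ∈ EZ := ⟨s, rfl⟩

theorem ext_res_apply (f : Br) (n i : ℕ) : ext (res f n) i = if i < n then f i else false := by
  by_cases h : i < n <;> simp [ext, res, h]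

/-- Tree automorphisms: a permutation of branches and of nodes compatible with restriction. -/
structure TAut where
  /-- action on branches -/
  onB : Br ≃ Br
  /-- action on nodes -/
  onN : Nd ≃ Nd
  compat : ∀ f n, onN (res f n) = res (onB f) n

/-- Composition. -/
def TAut.comp (h g : TAut) : TAut where
  onB := g.onB.trans h.onB
  onN := g.onN.trans h.onN
  compat := by
    intro f n
    simp [g.compat, h.compat]

/-- The identity. -/
def TAut.id : TAut where
  onB := Equiv.refl _
  onN := Equiv.refl _
  compat := by intro f n; rfl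

/-- Flip by `d` in the cone of `g` at level `N`. -/
def flipB (g d : Br) (N : ℕ) (f : Br) : Br :=
  if res f N = res g N then fun i => xor (f i) (d i) else f

theorem flipB_agree (g d : Br) (N : ℕ) (hd : ∀ i < N, d i = false) (f : Br) :
    ∀ i < N, flipB g d N f i = f i := by
  intro i hi
  unfold flipB
  split_ifs
  · simp [hd i hi]
  · rfl

theorem flipB_invol (g d : Br) (N : ℕ) (hd : ∀ i < N, d i = false) (f : Br) :
    flipB g d N (flipB g d N f) = f := by
  have h := flipB_agree g d N hd f
  have h2 : res (flipB g d N f) N = res f N := res_eq_iff.2 h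
  by_cases hf : res f N = res g N
  · have e : flipB g d N f = fun i => xor (f i) (d i) := if_pos hf
    rw [flipB, if_pos (h2.trans hf), e]
    funext i
    simp
  · have e : flipB g d N f = f := if_neg hf
    rw [e, e]

theorem flipB_res (g d : Br) (N : ℕ) (hd : ∀ i < N, d i = false) (f f' : Br) (n : ℕ)
    (h : res f n = res f' n) : res (flipB g d N f) n = res (flipB g d N f') n := by
  rw [res_eq_iff] at h ⊢
  intro i hi
  by_cases hn : n ≤ N
  · rw [flipB_agree g d N hd f i (by omega), flipB_agree g d N hd f' i (by omega)]
    exact h i hi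
  · push Not at hn
    have hiff : res f N = res g N ↔ res f' N = res g N := by
      have : res f N = res f' N := res_eq_iff.2 (fun j hj => h j (by omega))
      rw [this]
    unfold flipB
    by_cases hf : res f N = res g N
    · rw [if_pos hf, if_pos (hiff.1 hf)]
      simp only [h i hi]
    · rw [if_neg hf, if_neg (fun h' => hf (hiff.2 h'))]
      exact h i hi

/-- The flip as a tree automorphism. -/
def flip (g d : Br) (N : ℕ) (hd : ∀ i < N, d i = false) : TAut where
  onB := ⟨flipB g d N, flipB g d N, flipB_invol g d N hd, flipB_invol g d N hd⟩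
  onN := ⟨fun s => res (flipB g d N (ext s)) s.1, fun s => res (flipB g d N (ext s)) s.1, by
      intro s
      have h1 : res (ext (res (flipB g d N (ext s)) s.1)) s.1 = res (flipB g d N (ext s)) s.1 :=
        res_ext (res (flipB g d N (ext s)) s.1)
      have h2 := flipB_res g d N hd _ _ _ h1
      simp only [res_fst]
      rw [h2, flipB_invol g d N hd, res_ext], by
      intro s
      have h1 : res (ext (res (flipB g d N (ext s)) s.1)) s.1 = res (flipB g d N (ext s)) s.1 :=
        res_ext (res (flipB g d N (ext s)) s.1)
      have h2 := flipB_res g d N hd _ _ _ h1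
      simp only [res_fst]
      rw [h2, flipB_invol g d N hd, res_ext]⟩
  compat := by
    intro f n
    have h1 : res (ext (res f n)) n = res f n := res_ext (res f n)
    exact flipB_res g d N hd _ _ _ h1

theorem exists_separating (g : Br) (L : Finset Br) (hg : g ∉ L) (N : ℕ) :
    ∃ M, N ≤ M ∧ ∀ f ∈ L, res f M ≠ res g M := by
  classical
  induction L using Finset.induction_on with
  | empty => exact ⟨N, le_rfl, by simp⟩
  | insert f L hf ih =>
    obtain ⟨M, hM, hL⟩ := ih (fun h => hg (Finset.mem_insert_of_mem h))
    have hne : f ≠ g := fun h => hg (h ▸ Finset.mem_insert_self _ _)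
    obtain ⟨i, hi⟩ := Function.ne_iff.1 hne
    refine ⟨max M (i + 1), le_trans hM (le_max_left _ _), ?_⟩
    intro f' hf'
    rw [Finset.mem_insert] at hf'
    rcases hf' with rfl | hf'
    · intro h
      exact hi (res_eq_iff.1 h i (by omega))
    · intro h
      apply hL f' hf'
      rw [res_eq_iff] at h ⊢
      intro j hj
      exact h j (by omega)

/-- One step: move one branch into the eventually zero branches. -/
theorem exists_move_one (L : Finset Br) (hL : ∀ f ∈ L, f ∈ EZ) (N : ℕ) (g : Br) :
    ∃ h : TAut, (∀ f ∈ L, h.onB f = f) ∧ (∀ s : Nd, s.1 ≤ N → h.onN s = s) ∧ h.onB g ∈ EZ := by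
  by_cases hgE : g ∈ EZ
  · exact ⟨TAut.id, fun _ _ => rfl, fun _ _ => rfl, hgE⟩
  have hg : g ∉ L := fun h => hgE (hL g h)
  obtain ⟨M, hM, hsep⟩ := exists_separating g L hg N
  have hd : ∀ i < M, (fun i => xor (g i) (ext (res g M) i)) i = false := by
    intro i hi
    simp only [ext_res_apply, hi, if_true]
    cases g i <;> rfl
  refine ⟨flip g (fun i => xor (g i) (ext (res g M) i)) M hd, ?_, ?_, ?_⟩
  · intro f hf
    exact if_neg (hsep f hf)
  · intro s hs
    change res (flipB g _ M (ext s)) s.1 = s
    conv_rhs => rw [← res_ext s]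
    rw [res_eq_iff]
    intro i hi
    exact flipB_agree g _ M hd (ext s) i (by omega)
  · have : (flip g (fun i => xor (g i) (ext (res g M) i)) M hd).onB g = ext (res g M) := by
      change flipB g _ M g = _
      rw [flipB, if_pos rfl]
      funext i
      cases g i <;> cases ext (res g M) i <;> rfl
    rw [this]
    exact ext_mem_EZ _

/-- Move finitely many branches into the eventually zero branches, fixing given data. -/
theorem exists_move (L₀ : Finset Br) (L : Finset Br) (hL : ∀ f ∈ L, f ∈ EZ) (N : ℕ) :
    ∃ h : TAut, (∀ f ∈ L, h.onB f = f) ∧ (∀ s : Nd, s.1 ≤ N → h.onN s = s) ∧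
      ∀ g ∈ L₀, h.onB g ∈ EZ := by
  classical
  induction L₀ using Finset.induction_on with
  | empty => exact ⟨TAut.id, fun _ _ => rfl, fun _ _ => rfl, by simp⟩
  | insert g L₀ hg ih =>
    obtain ⟨h, h1, h2, h3⟩ := ih
    obtain ⟨h', h1', h2', h3'⟩ := exists_move_one (L ∪ L₀.image h.onB) (by
      intro f hf
      rw [Finset.mem_union, Finset.mem_image] at hf
      rcases hf with hf | ⟨g', hg', rfl⟩
      · exact hL f hf
      · exact h3 g' hg') N (h.onB g)
    refine ⟨h'.comp h, ?_, ?_, ?_⟩
    · intro f hf
      change h'.onB (h.onB f) = f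
      rw [h1 f hf]
      exact h1' f (Finset.mem_union_left _ hf)
    · intro s hs
      change h'.onN (h.onN s) = s
      rw [h2 s hs, h2' s hs]
    · intro g' hg'
      rw [Finset.mem_insert] at hg'
      change h'.onB (h.onB g') ∈ EZ
      rcases hg' with rfl | hg'
      · exact h3'
      · rw [h1' _ (Finset.mem_union_right _ (Finset.mem_image_of_mem _ hg'))]
        exact h3 g' hg'

end Pool.Agent.H97
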