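import Pool.Agent.H97.Code2
import Pool.Agent.H97.Tree

set_option autoImplicit false

namespace Pool.Agent.H97

universe u v w

section Ring

variable {R : Type u} [NonUnitalRing R]

/-- Action of the inverse of the invertible matrix on a column vector. -/
def inv2 (x y w : R) (u : R × R) : R × R :=
  (u.1 - x * u.2 - w * (u.2 - y * (u.1 - x * u.2)), u.2 - y * (u.1 - x * u.2))

/-- Action of the matrix with rows `(1 + a, q)` and `(c, 1 + d)` on a column vector. -/
def app2 (a c d q : R) (u : R × R) : R × R :=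
  (u.1 + a * u.1 + q * u.2, c * u.1 + u.2 + d * u.2)

theorem app2_inv2 (x y w : R) (u : R × R) :
    app2 (x * y) y (y * w) (x + w + x * (y * w)) (inv2 x y w u) = u := by
  obtain ⟨u1, u2⟩ := u
  simp only [app2, inv2, Prod.mk.injEq]
  constructor <;> simp only [mul_sub, add_mul, mul_assoc, mul_add, sub_mul] <;> abel

theorem inv2_app2 (x y w : R) (u : R × R) :
    inv2 x y w (app2 (x * y) y (y * w) (x + w + x * (y * w)) u) = u := by
  obtain ⟨u1, u2⟩ := u
  simp only [app2, inv2, Prod.mk.injEq]
  constructor <;> simp only [mul_sub, add_mul, mul_assoc, mul_add, sub_mul] <;> abel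

/-- The sequence along a branch. -/
def zseq (x y w : Nd → R) (b : Nd → R × R) (f : Br) (t : R × R) : ℕ → R × R
  | 0 => t
  | n + 1 => inv2 (x (res f n)) (y (res f n)) (w (res f n))
      (zseq x y w b f t n - b (res f n))

theorem zseq_rel (x y w : Nd → R) (b : Nd → R × R) (f : Br) (t : R × R) (n : ℕ) :
    zseq x y w b f t n =
      app2 (x (res f n) * y (res f n)) (y (res f n)) (y (res f n) * w (res f n))
        (x (res f n) + w (res f n) + x (res f n) * (y (res f n) * w (res f n)))
        (zseq x y w b f t (n + 1)) + b (res f n) := by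
  rw [zseq, app2_inv2]
  abel

theorem map_zseq {R' : Type v} [NonUnitalRing R'] {F : Type w} [FunLike F R R']
    [NonUnitalRingHomClass F R R'] (φ : F) (x y w : Nd → R)
    (b : Nd → R × R) (f : Br) (t : R × R) (n : ℕ) :
    Prod.map φ φ (zseq x y w b f t n) =
      zseq (fun s => φ (x s)) (fun s => φ (y s)) (fun s => φ (w s))
        (fun s => Prod.map φ φ (b s)) f (Prod.map φ φ t) n := by
  induction n with
  | zero => rfl
  | succ n ih =>
    rw [zseq, zseq, ← ih]
    simp [inv2, Prod.map]

theorem exists_zseq_eq (x y w : Nd → R) (b : Nd → R × R) (f : Br) (n : ℕ) (v : R × R) :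
    ∃ t, zseq x y w b f t n = v := by
  induction n generalizing v with
  | zero => exact ⟨v, rfl⟩
  | succ n ih =>
    obtain ⟨t, ht⟩ := ih (app2 (x (res f n) * y (res f n)) (y (res f n)) (y (res f n) * w (res f n))
        (x (res f n) + w (res f n) + x (res f n) * (y (res f n) * w (res f n))) v + b (res f n))
    refine ⟨t, ?_⟩
    rw [zseq, ht, add_sub_cancel_right, inv2_app2]

/-- The zero child of a node. -/
def ch0 (s : Nd) : Nd := res (ext s) (s.1 + 1)

theorem zseq_step_iff (x y w : Nd → R) (b : Nd → R × R) (ζ : Nd → R × R)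
    (hb : ∀ s, b s = ζ s - app2 (x s * y s) (y s) (y s * w s) (x s + w s + x s * (y s * w s))
      (ζ (ch0 s))) (f : Br) (t : R × R) (n : ℕ) (hf : ext (res f n) = f) :
    zseq x y w b f t (n + 1) = ζ (res f (n + 1)) ↔ zseq x y w b f t n = ζ (res f n) := by
  have hc : ch0 (res f n) = res f (n + 1) := by
    unfold ch0
    rw [hf]
    rfl
  constructor
  · intro h
    rw [zseq_rel, h, hb, hc]
    abel
  · intro h
    rw [zseq, h, hb, hc, sub_sub_cancel, inv2_app2]

theorem ext_res_of_le {f : Br} {n m : ℕ} (h : n ≤ m) (hf : ext (res f n) = f) :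
    ext (res f m) = f := by
  funext i
  rw [ext_res_apply]
  split_ifs with hi
  · rfl
  · have := congrFun hf i
    rw [ext_res_apply] at this
    split_ifs at this with h'
    · omega
    · exact this

theorem zseq_iff (x y w : Nd → R) (b : Nd → R × R) (ζ : Nd → R × R)
    (hb : ∀ s, b s = ζ s - app2 (x s * y s) (y s) (y s * w s) (x s + w s + x s * (y s * w s))
      (ζ (ch0 s))) (f : Br) (t : R × R) (n m : ℕ) (hnm : n ≤ m) (hf : ext (res f n) = f) :
    zseq x y w b f t m = ζ (res f m) ↔ zseq x y w b f t n = ζ (res f n) := by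
  induction m, hnm using Nat.le_induction with
  | base => rfl
  | succ m hm ih =>
    rw [zseq_step_iff x y w b ζ hb f t m (ext_res_of_le hm hf), ih]

theorem exists_tau (x y w : Nd → R) (b : Nd → R × R) (ζ : Nd → R × R)
    (hb : ∀ s, b s = ζ s - app2 (x s * y s) (y s) (y s * w s) (x s + w s + x s * (y s * w s))
      (ζ (ch0 s))) (f : Br) :
    ∃ t, ∀ s, ext s = f → zseq x y w b f t s.1 = ζ s := by
  by_cases hf : f ∈ EZ
  · obtain ⟨s0, hs0⟩ := hf
    obtain ⟨t, ht⟩ := exists_zseq_eq x y w b f s0.1 (ζ s0)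
    refine ⟨t, ?_⟩
    intro s hs
    have e1 : res f s.1 = s := by rw [← hs, res_ext]
    have e2 : res f s0.1 = s0 := by rw [← hs0, res_ext]
    have h1 : ext (res f s.1) = f := by rw [e1, hs]
    have h2 : ext (res f s0.1) = f := by rw [e2, hs0]
    have key : zseq x y w b f t s0.1 = ζ (res f s0.1) := by rw [ht, e2]
    rcases le_total s.1 s0.1 with h | h
    · have := (zseq_iff x y w b ζ hb f t s.1 s0.1 h h1).1 key
      rw [this, e1]
    · have := (zseq_iff x y w b ζ hb f t s0.1 s.1 h h2).2 key
      rw [this, e1]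
  · exact ⟨0, fun s hs => absurd ⟨s, hs⟩ hf⟩

end Ring

end Pool.Agent.H97
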